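import Pool.Agent.F2.SpecS

/-!
# Project F2, block S, row S2: from orderings to sums
-/

set_option autoImplicit false
set_option linter.unusedSectionVars false

namespace F2

open Finset NW F1

section Sum

variable {V : Type} [Fintype V] [DecidableEq V] {c : ℕ}

/-- the weight of a list of atoms -/
noncomputable def wtL (y : Atom V c → ℝ) (K : Finset V) (l : List (Atom V c)) : ℝ :=
  (l.map y).prod * (Fintype.card V : ℝ) ^ (-exL K l)

theorem wtL_nil (y : Atom V c → ℝ) (K : Finset V) : wtL y K [] = 1 := by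
  simp [wtL, exL]

theorem wtL_cons (hn : 1 ≤ Fintype.card V) (y : Atom V c → ℝ) (K : Finset V) (a : Atom V c)
    (l : List (Atom V c)) :
    wtL y K (a :: l) = y a * (Fintype.card V : ℝ) ^ (-ex a K) * wtL y (K ∪ av a) l := by
  have hn' : (Fintype.card V : ℝ) ≠ 0 := by
    have : 0 < Fintype.card V := hn
    exact_mod_cast this.ne'
  unfold wtL
  rw [List.map_cons, List.prod_cons]
  change _ * _ ^ (-(ex a K + exL (K ∪ av a) l)) = _
  rw [neg_add, zpow_add₀ hn']
  ring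

theorem wtL_nonneg {y : Atom V c → ℝ} (hy : ∀ a, 0 ≤ y a) (K : Finset V)
    (l : List (Atom V c)) : 0 ≤ wtL y K l := by
  unfold wtL
  refine mul_nonneg ?_ (zpow_nonneg (Nat.cast_nonneg _) _)
  apply List.prod_nonneg
  intro x hx
  rw [List.mem_map] at hx
  obtain ⟨a, _, rfl⟩ := hx
  exact hy a

theorem av_card_le (hc : 1 ≤ c) (a : Atom V c) : (av a).card ≤ c + 2 := by
  rcases a with T | h
  · have := T.2
    change T.1.card ≤ c + 2
    omega
  · change (univ.image h).card ≤ c + 2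
    exact card_image_le.trans (by simp)

theorem sum_cons_le (hn : 1 ≤ Fintype.card V) {y : Atom V c → ℝ} (hy : ∀ a, 0 ≤ y a)
    {A : ℝ} (_hA : 0 ≤ A) (K : Finset V) (𝓐 : Finset (Atom V c))
    (𝓣 : Finset (List (Atom V c))) {R : ℝ} (hR : 0 ≤ R)
    (h1 : ∑ a ∈ 𝓐, y a * (Fintype.card V : ℝ) ^ (-ex a K) ≤ A)
    (h2 : ∀ a ∈ 𝓐, ∑ l ∈ 𝓣, wtL y (K ∪ av a) l ≤ R) :
    ∑ l ∈ (𝓐 ×ˢ 𝓣).image (fun p : Atom V c × List (Atom V c) => p.1 :: p.2), wtL y K l ≤
      A * R := by
  rw [sum_image]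
  · rw [sum_product]
    calc ∑ a ∈ 𝓐, ∑ l ∈ 𝓣, wtL y K (a :: l)
        = ∑ a ∈ 𝓐, y a * (Fintype.card V : ℝ) ^ (-ex a K) * ∑ l ∈ 𝓣, wtL y (K ∪ av a) l := by
          refine sum_congr rfl fun a _ => ?_
          rw [mul_sum]
          exact sum_congr rfl fun l _ => wtL_cons hn y K a l
      _ ≤ ∑ a ∈ 𝓐, y a * (Fintype.card V : ℝ) ^ (-ex a K) * R := by
          refine sum_le_sum fun a ha => ?_
          exact mul_le_mul_of_nonneg_left (h2 a ha)
            (mul_nonneg (hy a) (zpow_nonneg (Nat.cast_nonneg _) _))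
      _ = (∑ a ∈ 𝓐, y a * (Fintype.card V : ℝ) ^ (-ex a K)) * R := by rw [sum_mul]
      _ ≤ A * R := mul_le_mul_of_nonneg_right h1 hR
  · rintro ⟨a, l⟩ _ ⟨b, l'⟩ _ h
    simp only [List.cons.injEq] at h
    rw [h.1, h.2]

theorem sum_lists (hn : 1 ≤ Fintype.card V) (hc : 1 ≤ c) {y : Atom V c → ℝ}
    (hy : ∀ a, 0 ≤ y a) {A : ℝ} (hA : 0 ≤ A) {N : ℕ}
    (hOA : ∀ K : Finset V, K.card ≤ N →
      ∑ a, y a * (Fintype.card V : ℝ) ^ (-ex a K) ≤ A) :
    ∀ (j : ℕ) (K : Finset V) (𝓛 : Finset (List (Atom V c))), K.card + j * (c + 2) ≤ N →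
      (∀ l ∈ 𝓛, l.length ≤ j) → ∑ l ∈ 𝓛, wtL y K l ≤ (1 + A) ^ j := by
  intro j
  induction j with
  | zero =>
    intro K 𝓛 _ h𝓛
    have hsub : 𝓛 ⊆ {[]} := by
      intro l hl
      have := h𝓛 l hl
      rw [mem_singleton]
      exact List.length_eq_zero_iff.1 (by omega)
    calc ∑ l ∈ 𝓛, wtL y K l ≤ ∑ l ∈ {[]}, wtL y K l :=
          sum_le_sum_of_subset_of_nonneg hsub (fun l _ _ => wtL_nonneg hy K l)
      _ = 1 := by rw [sum_singleton, wtL_nil]
      _ ≤ (1 + A) ^ 0 := by simp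
  | succ j ih =>
    intro K 𝓛 hK h𝓛
    have hK' : K.card + (j * (c + 2) + (c + 2)) ≤ N := by
      have : (j + 1) * (c + 2) = j * (c + 2) + (c + 2) := by ring
      omega
    have hsub : 𝓛 ⊆ {[]} ∪
        (univ ×ˢ 𝓛.image List.tail).image
          (fun p : Atom V c × List (Atom V c) => p.1 :: p.2) := by
      intro l hl
      rw [mem_union, mem_image, mem_singleton]
      rcases l with _ | ⟨a, l⟩
      · exact Or.inl rfl
      · exact Or.inr ⟨(a, l), mem_product.2 ⟨mem_univ _, mem_image.2 ⟨a :: l, hl, rfl⟩⟩, rfl⟩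
    have hpow : (1 : ℝ) ≤ (1 + A) ^ j := one_le_pow₀ (by linarith)
    have h2 : ∀ a ∈ (univ : Finset (Atom V c)),
        ∑ l ∈ 𝓛.image List.tail, wtL y (K ∪ av a) l ≤ (1 + A) ^ j := by
      intro a _
      refine ih (K ∪ av a) _ ?_ ?_
      · have h3 := card_union_le K (av a)
        have h4 := av_card_le hc a
        omega
      · intro l hl
        rw [mem_image] at hl
        obtain ⟨l', hl', rfl⟩ := hl
        have := h𝓛 l' hl'
        rw [List.length_tail]
        omega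
    have h3 := sum_cons_le hn hy hA K univ (𝓛.image List.tail) (by linarith)
      (hOA K (by omega)) h2
    calc ∑ l ∈ 𝓛, wtL y K l
        ≤ ∑ l ∈ {[]} ∪ (univ ×ˢ 𝓛.image List.tail).image
          (fun p : Atom V c × List (Atom V c) => p.1 :: p.2), wtL y K l :=
          sum_le_sum_of_subset_of_nonneg hsub (fun l _ _ => wtL_nonneg hy K l)
      _ ≤ ∑ l ∈ {[]}, wtL y K l + ∑ l ∈ (univ ×ˢ 𝓛.image List.tail).image
          (fun p : Atom V c × List (Atom V c) => p.1 :: p.2), wtL y K l := by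
          have h5 := sum_union_inter (s₁ := ({[]} : Finset (List (Atom V c))))
            (s₂ := (univ ×ˢ 𝓛.image List.tail).image
              (fun p : Atom V c × List (Atom V c) => p.1 :: p.2)) (f := wtL y K)
          have h6 : 0 ≤ ∑ l ∈ ({[]} : Finset (List (Atom V c))) ∩
            (univ ×ˢ 𝓛.image List.tail).image
              (fun p : Atom V c × List (Atom V c) => p.1 :: p.2), wtL y K l :=
            sum_nonneg fun l _ => wtL_nonneg hy K l
          linarith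
      _ ≤ 1 + A * (1 + A) ^ j := by
          rw [sum_singleton, wtL_nil]
          linarith
      _ ≤ (1 + A) ^ (j + 1) := by
          rw [pow_succ]
          nlinarith

/-- the product of the weights of a set of atoms and a list -/
theorem prod_le_wtL (hn : 1 ≤ Fintype.card V) {y : Atom V c → ℝ} (hy : ∀ a, 0 ≤ y a)
    {F : Finset V} {U : Finset (Atom V c)} {l : List (Atom V c)} (hl : l.Nodup)
    (hU : l.toFinset = U) {g : ℕ} (hg : exL F l ≤ -(g : ℤ)) :
    ∏ a ∈ U, y a ≤ wtL y F l / (Fintype.card V : ℝ) ^ g := by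
  have hn' : (1 : ℝ) ≤ (Fintype.card V : ℝ) := by exact_mod_cast hn
  have h1 : ∏ a ∈ U, y a = (l.map y).prod := by
    rw [← hU, List.prod_toFinset y hl]
  have h2 : 0 ≤ (l.map y).prod := by
    apply List.prod_nonneg
    intro x hx
    rw [List.mem_map] at hx
    obtain ⟨a, _, rfl⟩ := hx
    exact hy a
  have h3 : (Fintype.card V : ℝ) ^ g ≤ (Fintype.card V : ℝ) ^ (-exL F l) := by
    rw [← zpow_natCast]
    exact zpow_le_zpow_right₀ hn' (by omega)
  rw [h1, le_div_iff₀ (by positivity)]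
  exact mul_le_mul_of_nonneg_left h3 h2

theorem sum_family (hn : 1 ≤ Fintype.card V) {y : Atom V c → ℝ} (hy : ∀ a, 0 ≤ y a)
    {F : Finset V} {𝒰 : Finset (Finset (Atom V c))} {g : ℕ}
    (lst : Finset (Atom V c) → List (Atom V c))
    (hl : ∀ U ∈ 𝒰, (lst U).Nodup ∧ (lst U).toFinset = U ∧ exL F (lst U) ≤ -(g : ℤ)) :
    ∑ U ∈ 𝒰, ∏ a ∈ U, y a ≤
      (∑ l ∈ 𝒰.image lst, wtL y F l) / (Fintype.card V : ℝ) ^ g := by
  rw [sum_image, sum_div]
  · refine sum_le_sum fun U hU => ?_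
    exact prod_le_wtL hn hy (hl U hU).1 (hl U hU).2.1 (hl U hU).2.2
  · intro U hU U' hU' h
    rw [← (hl U hU).2.1, ← (hl U' hU').2.1, h]

end Sum

/-- **Row S2.**  From orderings to sums. -/
theorem sum_ord (h : OAStatement) : SumStatement := by
  classical
  intro c L m C hc
  obtain ⟨C₀, hC₀, hOA⟩ := h c (L + m * (c + 2)) C hc
  refine ⟨2 * C₀, by linarith, ?_⟩
  intro V _ _ RT s B y F 𝒰 hn hs hB hRB hW hF hm
  have hn' : (1 : ℝ) ≤ (Fintype.card V : ℝ) := by exact_mod_cast hn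
  have hs' : (1 : ℝ) ≤ (s : ℝ) := by exact_mod_cast hs
  have hy := hW.nonneg
  have hCB : 1 ≤ C₀ * B := by nlinarith
  have hbase : ∀ K : Finset V, K.card ≤ L + m * (c + 2) →
      ∑ a, y a * (Fintype.card V : ℝ) ^ (-ex a K) ≤ C₀ * B := fun K hK =>
    (hOA V RT s B y K hn hs hB hRB hW hK).1
  have hpow : ∀ j : ℕ, (1 + C₀ * B) ^ j ≤ (2 * C₀ * B) ^ j := fun j =>
    pow_le_pow_left₀ (by linarith) (by linarith) j
  -- families with a gain
  have part1 : ∀ (𝒱 : Finset (Finset (Atom V c))) (g : ℕ), (∀ U ∈ 𝒱, U.card ≤ m) →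
      (∀ U ∈ 𝒱, (∀ a ∈ U, y a ≠ 0) → ∃ l : List (Atom V c), l.Nodup ∧ l.toFinset = U ∧
        exL F l ≤ -(g : ℤ)) →
      ∑ U ∈ 𝒱, ∏ a ∈ U, y a ≤ (2 * C₀ * B) ^ m / (Fintype.card V : ℝ) ^ g := by
    intro 𝒱 g hcard hex
    have h1 : ∑ U ∈ 𝒱, ∏ a ∈ U, y a =
        ∑ U ∈ 𝒱.filter (fun U => ∀ a ∈ U, y a ≠ 0), ∏ a ∈ U, y a := by
      symm
      refine sum_filter_of_ne fun U _ hU a ha h0 => hU ?_
      exact prod_eq_zero ha h0
    have hex' : ∀ U : Finset (Atom V c), ∃ l : List (Atom V c),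
        U ∈ 𝒱.filter (fun U => ∀ a ∈ U, y a ≠ 0) → l.Nodup ∧ l.toFinset = U ∧
          exL F l ≤ -(g : ℤ) := by
      intro U
      by_cases hU : U ∈ 𝒱.filter (fun U => ∀ a ∈ U, y a ≠ 0)
      · obtain ⟨l, hl⟩ := hex U (mem_filter.1 hU).1 (mem_filter.1 hU).2
        exact ⟨l, fun _ => hl⟩
      · exact ⟨[], fun h2 => absurd h2 hU⟩
    choose lst hlst using hex'
    rw [h1]
    refine (sum_family hn hy lst (g := g) (F := F) hlst).trans ?_
    refine div_le_div_of_nonneg_right ?_ (by positivity)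
    refine le_trans ?_ (hpow m)
    refine sum_lists hn (by omega) hy (by linarith) hbase m F _ (by omega) ?_
    intro l hl
    rw [mem_image] at hl
    obtain ⟨U, hU, rfl⟩ := hl
    have h2 := hlst U hU
    rw [← List.toFinset_card_of_nodup h2.1, h2.2.1]
    exact hcard U (mem_filter.1 hU).1
  refine ⟨fun g hg => part1 𝒰 g hm hg, fun hex => ?_⟩
  -- second part
  have h1 : ∑ U ∈ 𝒰, ∏ a ∈ U, y a =
      ∑ U ∈ 𝒰.filter (fun U => ∀ a ∈ U, y a ≠ 0), ∏ a ∈ U, y a := by
    symm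
    refine sum_filter_of_ne fun U _ hU a ha h0 => hU ?_
    exact prod_eq_zero ha h0
  rcases Nat.eq_zero_or_pos m with hm0 | hm0
  · -- no member
    have h2 : 𝒰.filter (fun U => ∀ a ∈ U, y a ≠ 0) = ∅ := by
      rw [eq_empty_iff_forall_notMem]
      intro U hU
      obtain ⟨h, l, _, h3, _⟩ := hex U (mem_filter.1 hU).1 (mem_filter.1 hU).2
      have h4 := hm U (mem_filter.1 hU).1
      have h5 : U = ∅ := card_eq_zero.1 (by omega)
      rw [h5] at h3
      have h6 : (Sum.inr h : Atom V c) ∈ (∅ : Finset (Atom V c)) := by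
        rw [← h3]; simp
      simp at h6
    rw [h1, h2, sum_empty]
    positivity
  obtain ⟨m', rfl⟩ : ∃ m', m = m' + 1 := ⟨m - 1, by omega⟩
  have hex' : ∀ U : Finset (Atom V c), ∃ p : (Fin (c + 2) → V) × List (Atom V c),
      U ∈ 𝒰.filter (fun U => ∀ a ∈ U, y a ≠ 0) →
        (Sum.inr p.1 :: p.2).Nodup ∧ (Sum.inr p.1 :: p.2).toFinset = U ∧
        exL F (Sum.inr p.1 :: p.2) ≤ 0 ∧
        ((rt c p.1 ∩ F).card ≤ 1 ∨ exL F (Sum.inr p.1 :: p.2) ≤ -1) := by
    intro U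
    by_cases hU : U ∈ 𝒰.filter (fun U => ∀ a ∈ U, y a ≠ 0)
    · obtain ⟨h, l, hl⟩ := hex U (mem_filter.1 hU).1 (mem_filter.1 hU).2
      exact ⟨(h, l), fun _ => hl⟩
    · have h3 : ∃ v : V, True := by
        have : 0 < Fintype.card V := hn
        obtain ⟨v⟩ := Fintype.card_pos_iff.1 this
        exact ⟨v, trivial⟩
      obtain ⟨v, _⟩ := h3
      exact ⟨(fun _ => v, []), fun h2 => absurd h2 hU⟩
  choose pr hpr using hex'
  set 𝒱 := 𝒰.filter (fun U => ∀ a ∈ U, y a ≠ 0) with h𝒱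
  have hV : ∀ U ∈ 𝒱, U ∈ 𝒰 := fun U hU => (mem_filter.1 hU).1
  rw [h1, ← sum_filter_add_sum_filter_not 𝒱
    (fun U => exL F (Sum.inr (pr U).1 :: (pr U).2) ≤ -1)]
  have hA : ∑ U ∈ 𝒱.filter (fun U => exL F (Sum.inr (pr U).1 :: (pr U).2) ≤ -1),
      ∏ a ∈ U, y a ≤ (2 * C₀ * B) ^ (m' + 1) / (Fintype.card V : ℝ) ^ 1 := by
    refine part1 _ 1 (fun U hU => hm U (hV U (mem_filter.1 hU).1)) ?_
    intro U hU _
    have h2 := hpr U (mem_filter.1 hU).1
    exact ⟨Sum.inr (pr U).1 :: (pr U).2, h2.1, h2.2.1, by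
      have := (mem_filter.1 hU).2
      push_cast
      exact this⟩
  have hB' : ∑ U ∈ 𝒱.filter (fun U => ¬ exL F (Sum.inr (pr U).1 :: (pr U).2) ≤ -1),
      ∏ a ∈ U, y a ≤ (2 * C₀ * B) ^ (m' + 1) / s := by
    set 𝒲 := 𝒱.filter (fun U => ¬ exL F (Sum.inr (pr U).1 :: (pr U).2) ≤ -1) with h𝒲
    have h2 := sum_family hn hy (F := F) (𝒰 := 𝒲) (g := 0)
      (fun U => Sum.inr (pr U).1 :: (pr U).2) (by
        intro U hU
        have h3 := hpr U (mem_filter.1 hU).1
        refine ⟨h3.1, h3.2.1, ?_⟩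
        push_cast
        simpa using h3.2.2.1)
    rw [pow_zero, div_one] at h2
    refine h2.trans ?_
    have hsub : 𝒲.image (fun U => (Sum.inr (pr U).1 :: (pr U).2 : List (Atom V c))) ⊆
        (((univ.filter (fun h : Fin (c + 2) → V => (rt c h ∩ F).card ≤ 1)).image
          (fun h => (Sum.inr h : Atom V c))) ×ˢ (𝒲.image (fun U => (pr U).2))).image
          (fun p : Atom V c × List (Atom V c) => p.1 :: p.2) := by
      intro l hl
      rw [mem_image] at hl
      obtain ⟨U, hU, rfl⟩ := hl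
      rw [mem_image]
      refine ⟨(Sum.inr (pr U).1, (pr U).2), mem_product.2 ⟨?_, mem_image_of_mem _ hU⟩, rfl⟩
      refine mem_image_of_mem _ (mem_filter.2 ⟨mem_univ _, ?_⟩)
      have h3 := hpr U (mem_filter.1 hU).1
      rcases h3.2.2.2 with h4 | h4
      · exact h4
      · exact absurd h4 (mem_filter.1 hU).2
    refine (sum_le_sum_of_subset_of_nonneg hsub (fun l _ _ => wtL_nonneg hy F l)).trans ?_
    have h5 : ∑ a ∈ (univ.filter (fun h : Fin (c + 2) → V => (rt c h ∩ F).card ≤ 1)).image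
          (fun h => (Sum.inr h : Atom V c)), y a * (Fintype.card V : ℝ) ^ (-ex a F) ≤
        C₀ * B / s := by
      rw [sum_image]
      · have hmul : 0 ≤ (m' + 1) * (c + 2) := by positivity
        exact (hOA V RT s B y F hn hs hB hRB hW (by omega)).2
      · intro a _ b _ hab
        exact Sum.inr_injective hab
    have h6 : ∀ a ∈ (univ.filter (fun h : Fin (c + 2) → V => (rt c h ∩ F).card ≤ 1)).image
          (fun h => (Sum.inr h : Atom V c)),
        ∑ l ∈ 𝒲.image (fun U => (pr U).2), wtL y (F ∪ av a) l ≤ (2 * C₀ * B) ^ m' := by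
      intro a _
      refine le_trans ?_ (hpow m')
      refine sum_lists hn (by omega) hy (by linarith) hbase m' _ _ ?_ ?_
      · have h7 := card_union_le F (av a)
        have h8 := av_card_le (by omega : 1 ≤ c) a
        have h9 : (m' + 1) * (c + 2) = m' * (c + 2) + (c + 2) := by ring
        omega
      · intro l hl
        rw [mem_image] at hl
        obtain ⟨U, hU, rfl⟩ := hl
        have h3 := hpr U (mem_filter.1 hU).1
        have h4 := List.toFinset_card_of_nodup h3.1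
        rw [h3.2.1, List.length_cons] at h4
        have h5 := hm U (hV U (mem_filter.1 hU).1)
        omega
    refine (sum_cons_le hn hy (by positivity) F _ _ (by positivity) h5 h6).trans ?_
    rw [pow_succ, div_mul_eq_mul_div]
    refine div_le_div_of_nonneg_right ?_ (by positivity)
    have h7 : 0 ≤ (2 * C₀ * B) ^ m' := by positivity
    nlinarith
  rw [pow_one] at hA
  have : (2 * C₀ * B) ^ (m' + 1) * (1 / (s : ℝ) + 1 / (Fintype.card V : ℝ)) =
      (2 * C₀ * B) ^ (m' + 1) / (Fintype.card V : ℝ) + (2 * C₀ * B) ^ (m' + 1) / s := by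
    ring
  rw [this]
  exact add_le_add hA hB'

end F2
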