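import Pool.Agent.F2.SpecS

/-!
# Project F2, block S: basic facts about exponents of atoms
-/

set_option autoImplicit false
set_option linter.unusedSectionVars false

namespace F2

open Finset NW F1 F1.TriGood

variable {V : Type} [Fintype V] [DecidableEq V] {c : ℕ}

theorem av_inr (h : Fin (c + 2) → V) : av (Sum.inr h : Atom V c) = univ.image h := rfl
theorem av_inl (T : Tri V) : av (Sum.inl T : Atom V c) = T.1 := rfl
theorem fa_inr (h : Fin (c + 2) → V) : fa (Sum.inr h : Atom V c) = ON c h ∪ OFF c h := rfl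
theorem fa_inl (T : Tri V) : fa (Sum.inl T : Atom V c) = {T} := rfl

theorem rk_nonneg (a : Atom V c) (K : Finset V) : 0 ≤ rk a K := by
  rcases a with T | h
  · simp [rk]
  · simp only [rk, Sum.elim_inr]
    split_ifs <;> simp

theorem vs_empty : vs (∅ : Finset (Tri V)) = ∅ := by simp [vs]

theorem vs_singleton (T : Tri V) : vs ({T} : Finset (Tri V)) = T.1 := by simp [vs]

/-- the exponent of a booster with the cluster `T`, exactly -/
theorem atom_ex {h : Fin (c + 2) → V} (hb : BoostFacts c h) {T : Finset (Tri V)}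
    (hT : T ⊆ ON c h ∨ T ⊆ OFF c h) (hne : T.Nonempty) (hlt : T.card < c) (K : Finset V) :
    ex (Sum.inr h : Atom V c) K + (if 2 ≤ T.card then 1 else 0) +
      (((univ.image h ∩ K) \ vs T).card : ℤ) - rk (Sum.inr h : Atom V c) K ≤
      ((vs T \ K).card : ℤ) - (T.card : ℤ) := by
  have hsub : vs T ⊆ univ.image h := by
    intro v hv
    simp only [vs, mem_biUnion] at hv
    obtain ⟨t, ht, hv⟩ := hv
    rcases hT with h1 | h1
    · exact hb.vON t (h1 ht) hv
    · exact hb.vOFF t (h1 ht) hv
  have h1 : ((univ.image h ∩ K) \ vs T).card + (vs T ∩ K).card = (univ.image h ∩ K).card := by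
    have h2 := card_sdiff_add_card_inter (univ.image h ∩ K) (vs T)
    have h3 : univ.image h ∩ K ∩ vs T = vs T ∩ K := by
      ext v
      simp only [mem_inter]
      constructor
      · rintro ⟨⟨_, h5⟩, h6⟩; exact ⟨h6, h5⟩
      · rintro ⟨h5, h6⟩; exact ⟨⟨hsub h5, h6⟩, h5⟩
    rw [h3] at h2
    exact h2
  have h2 := card_sdiff_add_card_inter (vs T) K
  obtain ⟨h3, h4⟩ := hb.grow T hT hne hlt
  unfold ex
  rw [av_inr]
  split_ifs with h5
  · have := h4 h5
    omega
  · omega

theorem rt_card (hc : 1 ≤ c) {h : Fin (c + 2) → V} (hinj : Function.Injective h) :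
    (rt c h).card = 3 := by
  obtain ⟨d, rfl⟩ : ∃ d, c = d + 1 := ⟨c - 1, by omega⟩
  have key : ∀ i j : ℕ, i < 3 → j < 3 → i ≠ j →
      (Fin.ofNat (d + 1 + 2) i : Fin (d + 1 + 2)) ≠ Fin.ofNat (d + 1 + 2) j := by
    intro i j hi hj hij h1
    have h2 := congrArg Fin.val h1
    simp only [Fin.ofNat] at h2
    rw [Nat.mod_eq_of_lt (by omega), Nat.mod_eq_of_lt (by omega)] at h2
    exact hij h2
  have h01 : (0 : Fin (d + 1 + 2)) ≠ 1 := key 0 1 (by omega) (by omega) (by omega)
  have h02 : (0 : Fin (d + 1 + 2)) ≠ 2 := key 0 2 (by omega) (by omega) (by omega)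
  have h12 : (1 : Fin (d + 1 + 2)) ≠ 2 := key 1 2 (by omega) (by omega) (by omega)
  unfold rt
  rw [card_insert_of_notMem, card_insert_of_notMem, card_singleton]
  · simp only [mem_singleton]
    exact fun h3 => h12 (hinj h3)
  · simp only [mem_insert, mem_singleton]
    rintro (h3 | h3)
    · exact h01 (hinj h3)
    · exact h02 (hinj h3)

theorem rt_sub (h : Fin (c + 2) → V) : rt c h ⊆ univ.image h := by
  intro v hv
  simp only [rt, mem_insert, mem_singleton] at hv
  rcases hv with h4 | h4 | h4 <;> rw [h4] <;> exact mem_image_of_mem _ (mem_univ _)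

/-- a booster whose root is known and which has only one triple in the cluster has a known vertex
outside of the cluster -/
theorem known_outside (hc : 1 ≤ c) {h : Fin (c + 2) → V} (hb : BoostFacts c h)
    (hinj : Function.Injective h) {τ : Tri V} (hτ : τ ∈ ON c h ∪ OFF c h) {K : Finset V}
    (hK : rt c h ⊆ K) : 1 ≤ ((univ.image h ∩ K) \ τ.1).card := by
  have h1 := hb.face_rt τ hτ
  have h2 := rt_card hc hinj
  have h3 : rt c h \ τ.1 ⊆ (univ.image h ∩ K) \ τ.1 := by
    intro v hv
    rw [mem_sdiff] at hv ⊢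
    exact ⟨mem_inter.2 ⟨rt_sub h hv.1, hK hv.1⟩, hv.2⟩
  have h4 := card_le_card h3
  have h5 := card_sdiff_add_card_inter (rt c h) τ.1
  omega

/-- the exponent of a booster with the cluster `T`, upper bound -/
theorem atom_le (hc : 1 ≤ c) {h : Fin (c + 2) → V} (hb : BoostFacts c h)
    (hinj : Function.Injective h) {T : Finset (Tri V)}
    (hT : T ⊆ ON c h ∨ T ⊆ OFF c h) (hne : T.Nonempty) (hlt : T.card < c) (K : Finset V) :
    ex (Sum.inr h : Atom V c) K ≤ ((vs T \ K).card : ℤ) - (T.card : ℤ) := by
  have h1 := atom_ex hb hT hne hlt K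
  have h2 : rk (Sum.inr h : Atom V c) K = if rt c h ⊆ K then 1 else 0 := rfl
  by_cases h3 : rt c h ⊆ K
  · rw [if_pos h3] at h2
    by_cases h4 : 2 ≤ T.card
    · rw [if_pos h4, h2] at h1
      omega
    · have h5 : T.card = 1 := by
        have := hne.card_pos
        omega
      obtain ⟨τ, hτ⟩ := card_eq_one.1 h5
      have h6 : τ ∈ ON c h ∪ OFF c h := by
        rw [mem_union]
        rcases hT with h7 | h7
        · exact Or.inl (h7 (by rw [hτ]; simp))
        · exact Or.inr (h7 (by rw [hτ]; simp))
      have h7 := known_outside hc hb hinj h6 h3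
      rw [if_neg h4, h2] at h1
      rw [hτ, vs_singleton] at h1
      rw [hτ, vs_singleton]
      omega
  · rw [if_neg h3] at h2
    rw [h2] at h1
    split_ifs at h1 <;> omega

/-- the exponent of a triple -/
theorem tri_ex (T : Tri V) (K : Finset V) :
    ex (Sum.inl T : Atom V c) K = ((T.1 \ K).card : ℤ) - 1 := by
  have h1 := card_sdiff_add_card_inter T.1 K
  have h2 := T.2
  have h3 : rk (Sum.inl T : Atom V c) K = 0 := rfl
  unfold ex
  rw [h3, av_inl]
  omega

/-- the cluster of the atom `a` in the set `D` of triples -/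
def cl (D : Finset (Tri V)) (a : Atom V c) : Finset (Tri V) := fa a ∩ D

theorem vs_cl_sub {D : Finset (Tri V)} {a : Atom V c}
    (hb : ∀ h : Fin (c + 2) → V, a = Sum.inr h → BoostFacts c h) : vs (cl D a) ⊆ av a := by
  intro v hv
  simp only [vs, mem_biUnion, cl, mem_inter] at hv
  obtain ⟨t, ⟨ht, _⟩, hv⟩ := hv
  rcases a with T | h
  · rw [fa_inl, mem_singleton] at ht
    rw [av_inl, ← ht]
    exact hv
  · rw [fa_inr, mem_union] at ht
    rw [av_inr]
    rcases ht with ht | ht
    · exact (hb h rfl).vON t ht hv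
    · exact (hb h rfl).vOFF t ht hv

/-- one atom of a lift: upper bound by the new vertices of its cluster -/
theorem ex_le_cl (hc : 1 ≤ c) {D : Finset (Tri V)} {U : Finset (Atom V c)} (hU : IsLift D U)
    (hD : D.card < c) (hb : ∀ h : Fin (c + 2) → V, Function.Injective h → BoostFacts c h)
    {a : Atom V c} (ha : a ∈ U) (K : Finset V) :
    ex a K ≤ ((vs (cl D a) \ K).card : ℤ) - ((cl D a).card : ℤ) := by
  have hne := hU.used a ha
  rcases a with T | h
  · rw [tri_ex]
    have h1 : cl D (Sum.inl T : Atom V c) = {T} := by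
      obtain ⟨t, ht⟩ := hne
      rw [mem_inter, fa_inl, mem_singleton] at ht
      unfold cl
      rw [fa_inl]
      ext x
      simp only [mem_inter, mem_singleton]
      constructor
      · exact fun h2 => h2.1
      · rintro rfl
        exact ⟨rfl, by rw [← ht.1]; exact ht.2⟩
    rw [h1, vs_singleton]
    simp
  · have hinj := hU.inj h ha
    have h2 := hU.col h ha
    refine atom_le hc (hb h hinj) hinj h2 hne ?_ K
    exact (card_le_card inter_subset_right).trans_lt hD

/-- telescoping: a list of atoms of a lift -/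
theorem exL_le (hc : 1 ≤ c) {D : Finset (Tri V)} {U : Finset (Atom V c)} (hU : IsLift D U)
    (hD : D.card < c) (hb : ∀ h : Fin (c + 2) → V, Function.Injective h → BoostFacts c h) :
    ∀ (l : List (Atom V c)) (F : Finset V), l.Nodup → (∀ a ∈ l, a ∈ U) →
      exL F l ≤ ((vs (l.toFinset.biUnion (cl D)) \ F).card : ℤ) -
        ((l.toFinset.biUnion (cl D)).card : ℤ) := by
  intro l
  induction l with
  | nil =>
    intro F _ _
    simp [exL, vs]
  | cons a l ih =>
    intro F hl hlU
    rw [List.nodup_cons] at hl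
    have h1 := ih (F ∪ av a) hl.2 (fun b hb' => hlU b (List.mem_cons_of_mem _ hb'))
    have ha : a ∈ U := hlU a List.mem_cons_self
    have h2 := ex_le_cl hc hU hD hb ha F
    have h3 : (a :: l).toFinset.biUnion (cl D) = cl D a ∪ l.toFinset.biUnion (cl D) := by
      rw [List.toFinset_cons, biUnion_insert]
    have h4 : Disjoint (cl D a) (l.toFinset.biUnion (cl D)) := by
      rw [disjoint_biUnion_right]
      intro b hb'
      rw [disjoint_left]
      intro T hT hT'
      rw [cl, mem_inter] at hT hT'
      have h5 := hU.uniq T hT.2 a ha b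
        (hlU b (List.mem_cons_of_mem _ (List.mem_toFinset.1 hb'))) hT.1 hT'.1
      rw [h5] at hl
      exact hl.1 (List.mem_toFinset.1 hb')
    have h5 : ((cl D a ∪ l.toFinset.biUnion (cl D)).card : ℤ) =
        ((cl D a).card : ℤ) + ((l.toFinset.biUnion (cl D)).card : ℤ) := by
      rw [card_union_of_disjoint h4]
      push_cast
      ring
    have hva : vs (cl D a) ⊆ av a := by
      refine vs_cl_sub fun h hh => hb h (hU.inj h ?_)
      rw [← hh]; exact ha
    have h6 : ((vs (cl D a) \ F).card : ℤ) +
        ((vs (l.toFinset.biUnion (cl D)) \ (F ∪ av a)).card : ℤ) ≤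
        ((vs (cl D a ∪ l.toFinset.biUnion (cl D)) \ F).card : ℤ) := by
      have h7 : Disjoint (vs (cl D a) \ F) (vs (l.toFinset.biUnion (cl D)) \ (F ∪ av a)) := by
        rw [disjoint_left]
        intro v hv hv'
        rw [mem_sdiff] at hv hv'
        exact hv'.2 (mem_union_right _ (hva hv.1))
      have h8 : (vs (cl D a) \ F) ∪ (vs (l.toFinset.biUnion (cl D)) \ (F ∪ av a)) ⊆
          vs (cl D a ∪ l.toFinset.biUnion (cl D)) \ F := by
        intro v hv
        rw [vs_union]
        rw [mem_union, mem_sdiff, mem_sdiff] at hv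
        rw [mem_sdiff, mem_union]
        rcases hv with hv | hv
        · exact ⟨Or.inl hv.1, hv.2⟩
        · exact ⟨Or.inr hv.1, fun h9 => hv.2 (mem_union_left _ h9)⟩
      have h9 := card_le_card h8
      rw [card_union_of_disjoint h7] at h9
      exact_mod_cast h9
    rw [h3, h5]
    change ex a F + exL (F ∪ av a) l ≤ _
    omega

end F2
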