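import Pool.Agent.F2.S.Base

/-!
# Project F2, row S3: one configuration (helper74)
-/

set_option autoImplicit false
set_option linter.unusedSectionVars false

namespace F2

open Finset NW F1 F1.TriGood

/-- the triples of the new atoms are the unknown triples -/
theorem biUnion_cl_eq {V : Type} [Fintype V] [DecidableEq V] {c : ℕ} {D Z : Finset (Tri V)}
    {U P : Finset (Atom V c)} (hU : IsLift (D \ Z) U) :
    (U \ P).biUnion (cl (D \ Z)) = D \ knw D Z U P := by
  ext T
  rw [mem_biUnion, mem_sdiff]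
  constructor
  · rintro ⟨a, ha, hT⟩
    rw [mem_sdiff] at ha
    rw [cl, mem_inter] at hT
    obtain ⟨h1, h2⟩ := mem_sdiff.1 hT.2
    refine ⟨h1, fun h3 => ?_⟩
    rw [knw, mem_union, mem_inter, mem_biUnion] at h3
    rcases h3 with h3 | ⟨-, b, hb, h4⟩
    · exact h2 h3
    · rw [mem_inter] at hb
      have h5 := hU.uniq T hT.2 a ha.1 b hb.1 hT.1 h4
      exact ha.2 (h5 ▸ hb.2)
  · rintro ⟨h1, h2⟩
    rw [knw, mem_union, mem_inter, mem_biUnion] at h2
    push Not at h2
    have h3 : T ∈ D \ Z := mem_sdiff.2 ⟨h1, h2.1⟩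
    obtain ⟨a, ha, hT⟩ := hU.cover T h3
    refine ⟨a, mem_sdiff.2 ⟨ha, fun h4 => ?_⟩, ?_⟩
    · exact h2.2 h1 a (mem_inter.2 ⟨ha, h4⟩) hT
    · rw [cl, mem_inter]
      exact ⟨hT, h3⟩

theorem basic (ht : TemplateStatement) : BasicStatement := by
  intro c J hc hce hJ V _ _ D Z U P F l hD hZ hU hvZ hP hl hlU
  obtain ⟨_, hcJ, _, hvD, hm⟩ := conf_iff.1 hD
  have hb : ∀ h : Fin (c + 2) → V, Function.Injective h → BoostFacts c h :=
    fun h hh => ht c hc hce V h hh
  have hSD : knw D Z U P ⊆ D := by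
    rw [knw]
    exact union_subset hZ inter_subset_left
  have hD0 : (D \ Z).card < c := by
    have := card_le_card (sdiff_subset : D \ Z ⊆ D)
    omega
  have hall : ∀ a ∈ l, a ∈ U := by
    intro a ha
    have h1 : a ∈ l.toFinset := List.mem_toFinset.2 ha
    rw [hlU, mem_sdiff] at h1
    exact h1.1
  have h1 := exL_le (by omega) hU hD0 hb l F hl hall
  rw [hlU, biUnion_cl_eq hU] at h1
  have h2 : (D \ knw D Z U P).card + (knw D Z U P).card = D.card := by
    rw [card_sdiff_add_card_eq_card hSD]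
  have h3 : (vs (D \ knw D Z U P) \ F).card ≤ (vs D \ F).card :=
    card_le_card (sdiff_subset_sdiff (vs_mono sdiff_subset) (Subset.refl F))
  have h4 := card_sdiff_add_card_inter (vs D) F
  have hvS : vs (knw D Z U P) ⊆ F := by
    intro v hv
    simp only [vs, mem_biUnion] at hv
    obtain ⟨T, hT, hv⟩ := hv
    rw [knw, mem_union, mem_inter, mem_biUnion] at hT
    rcases hT with hT | ⟨hTD, a, ha, hTa⟩
    · exact hvZ (sub_vs hT hv)
    · rw [mem_inter] at ha
      have h5 : vs (cl D a) ⊆ av a := by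
        refine vs_cl_sub fun h hh => hb h (hU.inj h ?_)
        rw [← hh]
        exact ha.1
      have h6 : T ∈ cl D a := by
        rw [cl, mem_inter]
        exact ⟨hTa, hTD⟩
      exact hP (mem_biUnion.2 ⟨a, ha.2, h5 (sub_vs h6 hv)⟩)
  have hne : U \ P ≠ ∅ → knw D Z U P ≠ D := by
    intro h5 h6
    obtain ⟨a, ha⟩ := nonempty_iff_ne_empty.2 h5
    obtain ⟨T, hT⟩ := hU.used a (mem_sdiff.1 ha).1
    have h7 : T ∈ (U \ P).biUnion (cl (D \ Z)) := mem_biUnion.2 ⟨a, ha, hT⟩
    rw [biUnion_cl_eq hU, h6, sdiff_self] at h7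
    exact absurd h7 (notMem_empty T)
  have hmain : exL F l ≤ 2 + ((knw D Z U P).card : ℤ) - ((vs D ∩ F).card : ℤ) := by
    omega
  refine ⟨hmain, hvS, hne, fun h5 h6 => ?_⟩
  have h7 := hm (knw D Z U P) hSD (hne h6) h5
  have h8 : (vs (knw D Z U P)).card ≤ (vs D ∩ F).card :=
    card_le_card (subset_inter (vs_mono hSD) hvS)
  omega

end F2
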