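import Pool.Agent.F2.S.Base

/-!
# Project F2, block S: two configurations with a common triple (`DoubleStatement`)
-/

set_option autoImplicit false
set_option linter.unusedSectionVars false

namespace F2

open Finset NW F1 F1.TriGood

section Double

variable {V : Type} [Fintype V] [DecidableEq V] {c : ℕ}

theorem exL_app (l₁ l₂ : List (Atom V c)) : ∀ K : Finset V,
    exL K (l₁ ++ l₂) = exL K l₁ + exL (K ∪ vP l₁.toFinset) l₂ := by
  induction l₁ with
  | nil => intro K; simp [exL, vP]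
  | cons a l ih =>
    intro K
    have h1 : K ∪ vP (a :: l).toFinset = (K ∪ av a) ∪ vP l.toFinset := by
      rw [List.toFinset_cons, vP, biUnion_insert, ← union_assoc]
      rfl
    rw [h1]
    change ex a K + exL (K ∪ av a) (l ++ l₂) = ex a K + exL (K ∪ av a) l + _
    rw [ih]
    ring

/-- a known atom gives a second known triple -/
theorem knw_two {D : Finset (Tri V)} {T : Tri V} {U P : Finset (Atom V c)}
    (hU : IsLift (D \ {T}) U) {a : Atom V c} (ha : a ∈ U) (haP : a ∈ P) :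
    2 ≤ (knw D {T} U P).card := by
  obtain ⟨t, ht⟩ := hU.used a ha
  rw [mem_inter, mem_sdiff, mem_singleton] at ht
  have h1 : ({T, t} : Finset (Tri V)) ⊆ knw D {T} U P := by
    intro s hs
    rw [mem_insert, mem_singleton] at hs
    unfold knw
    rw [mem_union, mem_singleton, mem_inter, mem_biUnion]
    rcases hs with hs | hs
    · exact Or.inl hs
    · rw [hs]
      exact Or.inr ⟨ht.2.1, a, mem_inter.2 ⟨ha, haP⟩, ht.1⟩
  have h2 := card_le_card h1
  rwa [card_pair (Ne.symm ht.2.2)] at h2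

/-- first the atoms of `U₁`, then the remaining atoms of `U₂` -/
theorem double_seq (hb : BasicStatement) {J : ℕ} (h6 : 6 ≤ c) (heven : Even c) (hJ : J < c)
    {D₁ D₂ : Finset (Tri V)} {T₁ T₂ Ts : Tri V} {U₁ U₂ P : Finset (Atom V c)} {F : Finset V}
    (hD₁ : D₁ ∈ (triSys V J).conf) (hD₂ : D₂ ∈ (triSys V J).conf) (hT₁ : T₁ ∈ D₁) (hT₂ : T₂ ∈ D₂)
    (hU₁ : IsLift (D₁ \ {T₁}) U₁) (hU₂ : IsLift (D₂ \ {T₂}) U₂)
    (hs₁ : Sum.inl Ts ∈ U₁) (hs₂ : Sum.inl Ts ∈ U₂) (hF₁ : T₁.1 ⊆ F) (hF₂ : T₂.1 ⊆ F)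
    (hP : vP P ⊆ F) (hne : (U₁ ∪ U₂) \ P ≠ ∅)
    (hor : U₁ \ P = ∅ ∨ 2 ≤ (knw D₁ {T₁} U₁ P).card ∨ U₂ \ (P ∪ U₁) ≠ ∅) :
    ∃ l : List (Atom V c), l.Nodup ∧ l.toFinset = (U₁ ∪ U₂) \ P ∧ exL F l ≤ -1 := by
  have hl₁ : (U₁ \ P).toList.toFinset = U₁ \ P := toList_toFinset _
  have hl₂ : (U₂ \ (P ∪ U₁)).toList.toFinset = U₂ \ (P ∪ U₁) := toList_toFinset _
  have hF' : vP (P ∪ U₁) ⊆ F ∪ vP (U₁ \ P) := by
    intro v hv
    simp only [vP, mem_biUnion] at hv
    obtain ⟨a, ha, hv⟩ := hv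
    by_cases haP : a ∈ P
    · refine mem_union_left _ (hP ?_)
      simp only [vP, mem_biUnion]
      exact ⟨a, haP, hv⟩
    · refine mem_union_right _ ?_
      simp only [vP, mem_biUnion]
      exact ⟨a, mem_sdiff.2 ⟨(mem_union.1 ha).resolve_left haP, haP⟩, hv⟩
  obtain ⟨a1, -, -, a4⟩ := hb c J h6 heven hJ V D₁ {T₁} U₁ P F (U₁ \ P).toList hD₁
    (singleton_subset_iff.2 hT₁) hU₁ (by rw [vs_singleton]; exact hF₁) hP (nodup_toList _) hl₁
  obtain ⟨-, -, -, b4⟩ := hb c J h6 heven hJ V D₂ {T₂} U₂ (P ∪ U₁) (F ∪ vP (U₁ \ P))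
    (U₂ \ (P ∪ U₁)).toList hD₂
    (singleton_subset_iff.2 hT₂) hU₂
    (by rw [vs_singleton]; exact hF₂.trans subset_union_left) hF' (nodup_toList _) hl₂
  have b5 := b4 (knw_two hU₂ hs₂ (mem_union_right _ hs₁))
  have b6 : exL (F ∪ vP (U₁ \ P)) (U₂ \ (P ∪ U₁)).toList ≤ 0 := by
    by_cases h : U₂ \ (P ∪ U₁) = ∅
    · rw [h]
      simp [exL]
    · linarith [b5 h]
  have hsum : exL F ((U₁ \ P).toList ++ (U₂ \ (P ∪ U₁)).toList) =
      exL F (U₁ \ P).toList + exL (F ∪ vP (U₁ \ P)) (U₂ \ (P ∪ U₁)).toList := by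
    rw [exL_app, hl₁]
  refine ⟨(U₁ \ P).toList ++ (U₂ \ (P ∪ U₁)).toList, ?_, ?_, ?_⟩
  · rw [List.nodup_append]
    refine ⟨nodup_toList _, nodup_toList _, ?_⟩
    intro a ha b hb' hab
    rw [mem_toList, mem_sdiff] at ha hb'
    rw [← hab] at hb'
    exact hb'.2 (mem_union_right _ ha.1)
  · rw [List.toFinset_append, hl₁, hl₂]
    apply Subset.antisymm
    · intro a ha
      rw [mem_union, mem_sdiff, mem_sdiff, mem_union] at ha
      rw [mem_sdiff, mem_union]
      rcases ha with ha | ha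
      · exact ⟨Or.inl ha.1, ha.2⟩
      · exact ⟨Or.inr ha.1, fun h => ha.2 (Or.inl h)⟩
    · intro a ha
      rw [mem_sdiff, mem_union] at ha
      rw [mem_union, mem_sdiff, mem_sdiff, mem_union]
      by_cases h : a ∈ U₁
      · exact Or.inl ⟨h, ha.2⟩
      · exact Or.inr ⟨ha.1.resolve_left h, fun h1 => h1.elim ha.2 h⟩
  · rw [hsum]
    by_cases hE : U₁ \ P = ∅
    · have h1 : U₂ \ (P ∪ U₁) ≠ ∅ := by
        intro h2
        apply hne
        rw [eq_empty_iff_forall_notMem] at h2 hE ⊢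
        intro a ha
        rw [mem_sdiff, mem_union] at ha
        rcases ha with ⟨h3 | h3, h4⟩
        · exact hE a (mem_sdiff.2 ⟨h3, h4⟩)
        · refine h2 a (mem_sdiff.2 ⟨h3, ?_⟩)
          rw [mem_union]
          rintro (h5 | h5)
          · exact h4 h5
          · exact hE a (mem_sdiff.2 ⟨h5, h4⟩)
      have h3 := b5 h1
      have h4 : exL F (U₁ \ P).toList = 0 := by
        rw [hE]
        simp [exL]
      linarith
    · by_cases h2 : 2 ≤ (knw D₁ {T₁} U₁ P).card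
      · have := a4 h2 hE
        linarith
      · have h3 : U₂ \ (P ∪ U₁) ≠ ∅ := by
          rcases hor with h | h | h
          · exact absurd h hE
          · exact absurd h h2
          · exact h
        have h4 := b5 h3
        have h5 : T₁.1 ⊆ vs D₁ ∩ F := subset_inter (sub_vs hT₁) hF₁
        have h6 := card_le_card h5
        rw [T₁.2] at h6
        have h7 : ((3 : ℕ) : ℤ) ≤ ((vs D₁ ∩ F).card : ℤ) := by exact_mod_cast h6
        have h8 : ((knw D₁ {T₁} U₁ P).card : ℤ) ≤ 1 := by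
          have : (knw D₁ {T₁} U₁ P).card ≤ 1 := by omega
          exact_mod_cast this
        push_cast at h7
        linarith

/-- the vertices of a configuration without one triple -/
theorem vs_erase_conf {J : ℕ} {D : Finset (Tri V)} {T : Tri V} (hD : D ∈ (triSys V J).conf)
    (hT : T ∈ D) : vs (D \ {T}) = vs D := by
  obtain ⟨h3, -, -, h4, h5⟩ := conf_iff.1 hD
  have h6 : (D \ {T}).card = D.card - 1 := by
    rw [card_sdiff_of_subset (singleton_subset_iff.2 hT), card_singleton]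
  refine eq_of_subset_of_card_le (vs_mono sdiff_subset) ?_
  have h7 := h5 (D \ {T}) sdiff_subset (by
    intro h
    have : T ∈ D \ {T} := by rw [h]; exact hT
    rw [mem_sdiff, mem_singleton] at this
    exact this.2 rfl) (by omega)
  omega

/-- the last case: the two lifts agree and nothing is known -/
theorem double_last (ht : TemplateStatement) (hb : BasicStatement) {J : ℕ} (h6 : 6 ≤ c)
    (heven : Even c) (hJ : J < c)
    {D₁ D₂ : Finset (Tri V)} {T₁ T₂ : Tri V} {U P : Finset (Atom V c)} {F : Finset V}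
    (hD₁ : D₁ ∈ (triSys V J).conf) (hD₂ : D₂ ∈ (triSys V J).conf) (hT₁ : T₁ ∈ D₁) (hT₂ : T₂ ∈ D₂)
    (hne12 : T₁ ≠ T₂) (hU₁ : IsLift (D₁ \ {T₁}) U) (hU₂ : IsLift (D₂ \ {T₂}) U)
    (hF₁ : T₁.1 ⊆ F) (hF₂ : T₂.1 ⊆ F) (hP : vP P ⊆ F) (hUP : U \ P = U)
    (hk : (knw D₁ {T₁} U P).card ≤ 1) :
    ∃ l : List (Atom V c), l.Nodup ∧ l.toFinset = U ∧ exL F l ≤ -1 := by
  have hbf : ∀ h : Fin (c + 2) → V, Function.Injective h → BoostFacts c h :=
    fun h hinj => ht c h6 heven V h hinj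
  obtain ⟨hc3, hcJ, hpk, hcv, -⟩ := conf_iff.1 hD₁
  have h5 : T₁.1 ⊆ vs D₁ ∩ F := subset_inter (sub_vs hT₁) hF₁
  by_cases h4 : 4 ≤ (vs D₁ ∩ F).card
  · obtain ⟨a1, -, -, -⟩ := hb c J h6 heven hJ V D₁ {T₁} U P F U.toList hD₁
      (singleton_subset_iff.2 hT₁) hU₁ (by rw [vs_singleton]; exact hF₁) hP (nodup_toList _)
      (by rw [toList_toFinset, hUP])
    refine ⟨U.toList, nodup_toList _, toList_toFinset _, ?_⟩
    have h7 : ((4 : ℕ) : ℤ) ≤ ((vs D₁ ∩ F).card : ℤ) := by exact_mod_cast h4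
    have h8 : ((knw D₁ {T₁} U P).card : ℤ) ≤ 1 := by exact_mod_cast hk
    push_cast at h7
    linarith
  have hvF : vs D₁ ∩ F = T₁.1 := by
    refine (eq_of_subset_of_card_le h5 ?_).symm
    rw [T₁.2]
    omega
  -- the vertex `x`
  obtain ⟨x, hx2, hx1⟩ : ∃ x ∈ T₂.1, x ∉ T₁.1 := by
    by_contra hcon
    push Not at hcon
    have h1 : T₂.1 = T₁.1 := eq_of_subset_of_card_le hcon (by rw [T₁.2, T₂.2])
    exact hne12 (Subtype.ext h1.symm)
  have hxF : x ∈ F := hF₂ hx2
  have hxD : x ∉ vs D₁ := fun h => hx1 (by rw [← hvF]; exact mem_inter.2 ⟨h, hxF⟩)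
  have hx3 : x ∈ vs (D₂ \ {T₂}) := by
    rw [vs_erase_conf hD₂ hT₂]
    exact sub_vs hT₂ hx2
  obtain ⟨t, htD, hxt⟩ : ∃ t ∈ D₂ \ {T₂}, x ∈ t.1 := by
    simp only [vs, mem_biUnion] at hx3
    exact hx3
  obtain ⟨a, haU, hta⟩ := hU₂.cover t htD
  rcases a with T | h
  · exfalso
    rw [fa_inl, mem_singleton] at hta
    obtain ⟨t', ht'⟩ := hU₁.used _ haU
    rw [mem_inter, fa_inl, mem_singleton, mem_sdiff] at ht'
    apply hxD
    refine sub_vs ht'.2.1 ?_
    rw [ht'.1, ← hta]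
    exact hxt
  have hinj : Function.Injective h := hU₁.inj h haU
  have hbh := hbf h hinj
  have hxh : x ∈ univ.image h := by
    rw [fa_inr, mem_union] at hta
    rcases hta with hta | hta
    · exact hbh.vON t hta hxt
    · exact hbh.vOFF t hta hxt
  -- the cluster of `h`
  set D' : Finset (Tri V) := D₁ \ {T₁} with hD'
  set Tc : Finset (Tri V) := cl D' (Sum.inr h : Atom V c) with hTc
  have hTcsub : Tc ⊆ D' := inter_subset_right
  have hTcne : Tc.Nonempty := hU₁.used _ haU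
  have hD'card : D'.card + 1 = D₁.card := by
    have := card_sdiff_of_subset (singleton_subset_iff.2 hT₁)
    rw [card_singleton] at this
    rw [hD']
    omega
  have hTclt : Tc.card < c := by
    have := card_le_card hTcsub
    omega
  have hvTc : vs Tc ⊆ vs D₁ := vs_mono (hTcsub.trans sdiff_subset)
  have hone : 1 ≤ ((univ.image h ∩ F) \ vs Tc).card := by
    rw [Nat.succ_le_iff, card_pos]
    exact ⟨x, mem_sdiff.2 ⟨mem_inter.2 ⟨hxh, hxF⟩, fun h1 => hxD (hvTc h1)⟩⟩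
  have hex : ex (Sum.inr h : Atom V c) F ≤ ((vs Tc \ F).card : ℤ) - (Tc.card : ℤ) - 1 := by
    have h1 := atom_ex hbh (hU₁.col h haU) hTcne hTclt F
    have h2 : rk (Sum.inr h : Atom V c) F = if rt c h ⊆ F then 1 else 0 := rfl
    change ex (Sum.inr h : Atom V c) F + (if 2 ≤ Tc.card then 1 else 0) +
      (((univ.image h ∩ F) \ vs Tc).card : ℤ) - rk (Sum.inr h : Atom V c) F ≤
      ((vs Tc \ F).card : ℤ) - (Tc.card : ℤ) at h1
    by_cases h3 : rt c h ⊆ F
    · rw [if_pos h3] at h2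
      rw [h2] at h1
      by_cases h7 : 2 ≤ Tc.card
      · rw [if_pos h7] at h1
        omega
      · rw [if_neg h7] at h1
        have h8 : Tc.card = 1 := by
          have := hTcne.card_pos
          omega
        obtain ⟨τ, hτ⟩ := card_eq_one.1 h8
        have hτc : τ ∈ Tc := by rw [hτ]; exact mem_singleton_self _
        have hτD : τ ∈ D₁ ∧ τ ≠ T₁ := by
          have := hTcsub hτc
          rw [hD', mem_sdiff, mem_singleton] at this
          exact this
        have hτf : τ ∈ ON c h ∪ OFF c h := by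
          have := (mem_inter.1 hτc).1
          rw [fa_inr] at this
          exact this
        have h9 := hbh.face_rt τ hτf
        have h10 := rt_card (by omega : 1 ≤ c) hinj
        have h11 : (rt c h ∩ τ.1).card ≤ 1 := by
          by_contra hcon
          push Not at hcon
          have h12 : rt c h ∩ τ.1 ⊆ τ.1 ∩ T₁.1 := by
            intro v hv
            rw [mem_inter] at hv
            rw [mem_inter, ← hvF, mem_inter]
            exact ⟨hv.2, sub_vs hτD.1 hv.2, h3 hv.1⟩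
          obtain ⟨u, hu, w, hw, huw⟩ := one_lt_card.1 hcon
          have hu' := mem_inter.1 (h12 hu)
          have hw' := mem_inter.1 (h12 hw)
          have h13 := hpk τ hτD.1 T₁ hT₁ hτD.2
          exact disjoint_left.1 h13 (NW.mk_mem_edg.2 ⟨hu'.1, hw'.1, huw⟩)
            (NW.mk_mem_edg.2 ⟨hu'.2, hw'.2, huw⟩)
        have h12 : rt c h \ τ.1 ⊆ (univ.image h ∩ F) \ vs Tc := by
          intro v hv
          rw [mem_sdiff] at hv ⊢
          refine ⟨mem_inter.2 ⟨rt_sub h hv.1, h3 hv.1⟩, ?_⟩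
          rw [hτ, vs_singleton]
          exact hv.2
        have h13 := card_le_card h12
        have h14 := card_sdiff_add_card_inter (rt c h) τ.1
        omega
    · rw [if_neg h3] at h2
      rw [h2] at h1
      split_ifs at h1 <;> omega
  -- the rest of the list
  have hrest := exL_le (by omega : 1 ≤ c) hU₁ (by omega) hbf
    (U.erase (Sum.inr h)).toList (F ∪ univ.image h) (nodup_toList _)
    (fun b hb' => (mem_erase.1 (mem_toList.1 hb')).2)
  rw [toList_toFinset] at hrest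
  set R : Finset (Tri V) := (U.erase (Sum.inr h)).biUnion (cl D') with hR
  have hRsub : R ⊆ D' := by
    intro s hs
    rw [hR, mem_biUnion] at hs
    obtain ⟨b, -, hs⟩ := hs
    exact (mem_inter.1 hs).2
  have hRT : D' = Tc ∪ R := by
    apply Subset.antisymm
    · intro s hs
      obtain ⟨b, hbU, hsb⟩ := hU₁.cover s hs
      by_cases hbh' : b = Sum.inr h
      · rw [hbh'] at hsb
        exact mem_union_left _ (mem_inter.2 ⟨hsb, hs⟩)
      · refine mem_union_right _ ?_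
        rw [hR, mem_biUnion]
        exact ⟨b, mem_erase.2 ⟨hbh', hbU⟩, mem_inter.2 ⟨hsb, hs⟩⟩
    · exact union_subset hTcsub hRsub
  have hdis : Disjoint Tc R := by
    rw [disjoint_left]
    intro s hs hs'
    rw [hR, mem_biUnion] at hs'
    obtain ⟨b, hb', hs'⟩ := hs'
    rw [mem_erase] at hb'
    rw [hTc, cl, mem_inter] at hs
    rw [cl, mem_inter] at hs'
    exact hb'.1 (hU₁.uniq s hs.2 b hb'.2 _ haU hs'.1 hs.1)
  have hcard : Tc.card + R.card = D'.card := by
    rw [← card_union_of_disjoint hdis, ← hRT]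
  have hvTh : vs Tc ⊆ univ.image h := by
    have := vs_cl_sub (D := D') (a := (Sum.inr h : Atom V c)) (fun g hg => by
      have : h = g := Sum.inr_injective hg
      rw [← this]; exact hbh)
    exact this
  have hsum : (vs Tc \ F).card + (vs R \ (F ∪ univ.image h)).card ≤ (vs D₁ \ F).card := by
    have h7 : Disjoint (vs Tc \ F) (vs R \ (F ∪ univ.image h)) := by
      rw [disjoint_left]
      intro v hv hv'
      rw [mem_sdiff] at hv hv'
      exact hv'.2 (mem_union_right _ (hvTh hv.1))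
    rw [← card_union_of_disjoint h7]
    refine card_le_card ?_
    intro v hv
    rw [mem_union, mem_sdiff, mem_sdiff] at hv
    rw [mem_sdiff]
    rcases hv with hv | hv
    · exact ⟨hvTc hv.1, hv.2⟩
    · exact ⟨vs_mono (hRsub.trans sdiff_subset) hv.1, fun h9 => hv.2 (mem_union_left _ h9)⟩
  have hvD : (vs D₁ \ F).card + 3 = (vs D₁).card := by
    have := card_sdiff_add_card_inter (vs D₁) F
    rw [hvF, T₁.2] at this
    exact this
  refine ⟨Sum.inr h :: (U.erase (Sum.inr h)).toList, ?_, ?_, ?_⟩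
  · rw [List.nodup_cons]
    refine ⟨fun h1 => ?_, nodup_toList _⟩
    exact (mem_erase.1 (mem_toList.1 h1)).1 rfl
  · rw [List.toFinset_cons, toList_toFinset, insert_erase haU]
  · change ex (Sum.inr h : Atom V c) F + exL (F ∪ univ.image h) _ ≤ -1
    omega

end Double

theorem double (ht : TemplateStatement) (hb : BasicStatement) : DoubleStatement := by
  intro c J h6 heven hJ V _ _ D₁ D₂ T₁ T₂ Ts U₁ U₂ P F hD₁ hD₂ hT₁ hT₂ hT₂' hT₁' hU₁ hU₂ hs₁ hs₂
    hF₁ hF₂ hP hne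
  by_cases hor₁ : U₁ \ P = ∅ ∨ 2 ≤ (knw D₁ {T₁} U₁ P).card ∨ U₂ \ (P ∪ U₁) ≠ ∅
  · exact double_seq hb h6 heven hJ hD₁ hD₂ hT₁ hT₂ hU₁ hU₂ hs₁ hs₂ hF₁ hF₂ hP hne hor₁
  by_cases hor₂ : U₂ \ P = ∅ ∨ 2 ≤ (knw D₂ {T₂} U₂ P).card ∨ U₁ \ (P ∪ U₂) ≠ ∅
  · rw [union_comm] at hne
    obtain ⟨l, h1, h2, h3⟩ :=
      double_seq hb h6 heven hJ hD₂ hD₁ hT₂ hT₁ hU₂ hU₁ hs₂ hs₁ hF₂ hF₁ hP hne hor₂
    exact ⟨l, h1, by rw [h2, union_comm], h3⟩
  push Not at hor₁ hor₂
  obtain ⟨-, a2, a3⟩ := hor₁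
  obtain ⟨-, b2, b3⟩ := hor₂
  have hP₁ : ∀ a ∈ U₁, a ∉ P := fun a ha haP => by
    have := knw_two hU₁ ha haP
    omega
  have hP₂ : ∀ a ∈ U₂, a ∉ P := fun a ha haP => by
    have := knw_two hU₂ ha haP
    omega
  have hU : U₁ = U₂ := by
    apply Subset.antisymm
    · intro a ha
      by_contra hcon
      have : a ∈ U₁ \ (P ∪ U₂) := by
        rw [mem_sdiff, mem_union]
        exact ⟨ha, fun h => h.elim (hP₁ a ha) hcon⟩
      rw [b3] at this
      exact notMem_empty _ this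
    · intro a ha
      by_contra hcon
      have : a ∈ U₂ \ (P ∪ U₁) := by
        rw [mem_sdiff, mem_union]
        exact ⟨ha, fun h => h.elim (hP₂ a ha) hcon⟩
      rw [a3] at this
      exact notMem_empty _ this
  subst hU
  have hUP : U₁ \ P = U₁ := by
    refine Finset.sdiff_eq_self_of_disjoint ?_
    rw [disjoint_left]
    exact hP₁
  have hne12 : T₁ ≠ T₂ := fun h => hT₂' (by rw [← h]; exact hT₁)
  obtain ⟨l, h1, h2, h3⟩ := double_last ht hb h6 heven hJ hD₁ hD₂ hT₁ hT₂ hne12 hU₁ hU₂ hF₁ hF₂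
    hP hUP (by omega)
  exact ⟨l, h1, by rw [h2, union_self, hUP], h3⟩

end F2
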