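import Pool.Agent.F2.S.Base

/-!
# Project F2, block S, row S4: a new booster is placed first

If a configuration through the known triple `T` is lifted and a new booster `h`, whose root is not
`T`, is placed first, then the exponent is at most `0`, and at most `-1` if at least two vertices
of the root of `h` are known.
-/

set_option autoImplicit false
set_option linter.unusedSectionVars false

namespace F2

open Finset NW F1 F1.TriGood

/-- two different triples of a configuration share at most one vertex -/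
theorem inter_card_le_one {V : Type} [Fintype V] [DecidableEq V] {A B : Finset V}
    (h : Disjoint (NW.edg A) (NW.edg B)) : (A ∩ B).card ≤ 1 := by
  by_contra hcon
  push Not at hcon
  obtain ⟨u, hu, v, hv, huv⟩ := one_lt_card.1 hcon
  rw [mem_inter] at hu hv
  exact disjoint_left.1 h (NW.mk_mem_edg.2 ⟨hu.1, hv.1, huv⟩) (NW.mk_mem_edg.2 ⟨hu.2, hv.2, huv⟩)

/-- row S4 -/
theorem new_booster (ht : TemplateStatement) (hb : BasicStatement) : NewStatement := by
  intro c J hc hev hJ V _ _ D T U P F h l hD hT hU hTF hPF hrt hnd hlist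
  obtain ⟨b1, b2, b3, b4⟩ := hb c J hc hev hJ V D {T} U P F (Sum.inr h :: l) hD
    (singleton_subset_iff.2 hT) hU (by rw [vs_singleton]; exact hTF) hPF hnd hlist
  have hhl : (Sum.inr h : Atom V c) ∈ (Sum.inr h :: l).toFinset := by simp
  have hhUP : (Sum.inr h : Atom V c) ∈ U \ P := by rw [← hlist]; exact hhl
  have hUP : U \ P ≠ ∅ := by
    intro h0
    rw [h0] at hhUP
    exact absurd hhUP (notMem_empty _)
  have hTS : T ∈ knw D {T} U P := by
    unfold knw
    exact mem_union_left _ (mem_singleton_self T)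
  have hS1 : 1 ≤ (knw D {T} U P).card := card_pos.2 ⟨T, hTS⟩
  have hTvs : T.1 ⊆ vs D ∩ F := subset_inter (sub_vs hT) hTF
  have h3 : 3 ≤ (vs D ∩ F).card := by
    have := card_le_card hTvs
    rw [T.2] at this
    exact this
  by_cases h2 : 2 ≤ (knw D {T} U P).card
  · have := b4 h2 hUP
    exact ⟨by omega, Or.inr this⟩
  have hS2 : (knw D {T} U P).card = 1 := by omega
  refine ⟨by omega, ?_⟩
  by_cases h5 : (rt c h ∩ F).card ≤ 1
  · exact Or.inl h5
  right
  by_cases h6 : 4 ≤ (vs D ∩ F).card
  · omega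
  have h7 : vs D ∩ F = T.1 := (eq_of_subset_of_card_le hTvs (by rw [T.2]; omega)).symm
  have hST : ∀ t ∈ knw D {T} U P, t = T := by
    intro t ht'
    exact (card_le_one.1 hS2.le) t ht' T hTS
  have hhU : (Sum.inr h : Atom V c) ∈ U := (mem_sdiff.1 hhUP).1
  have hinj := hU.inj h hhU
  have hbf : ∀ h : Fin (c + 2) → V, Function.Injective h → BoostFacts c h :=
    fun h hh => ht c hc hev V h hh
  obtain ⟨c3, cJ, cdis, cvs, cmin⟩ := conf_iff.1 hD
  have hc1 : 1 ≤ c := by omega
  have hDc : (D \ {T}).card < c :=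
    lt_of_le_of_lt (card_le_card (sdiff_subset : D \ {T} ⊆ D)) (lt_of_le_of_lt cJ hJ)
  have hDT : (D \ {T}).card + 1 = D.card := by
    rw [sdiff_singleton_eq_erase, card_erase_of_mem hT]
    omega
  -- the cluster of `h`
  have hTcne : (cl (D \ {T}) (Sum.inr h : Atom V c)).Nonempty := hU.used _ hhU
  have hTccol : cl (D \ {T}) (Sum.inr h : Atom V c) ⊆ ON c h ∨
      cl (D \ {T}) (Sum.inr h : Atom V c) ⊆ OFF c h := hU.col h hhU
  have hTcD : cl (D \ {T}) (Sum.inr h : Atom V c) ⊆ D \ {T} := inter_subset_right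
  have hTclt : (cl (D \ {T}) (Sum.inr h : Atom V c)).card < c :=
    lt_of_le_of_lt (card_le_card hTcD) hDc
  have hax := atom_ex (hbf h hinj) hTccol hTcne hTclt F
  have hrk : rk (Sum.inr h : Atom V c) F = if rt c h ⊆ F then 1 else 0 := rfl
  have hrc := rt_card hc1 hinj
  have hin : ∀ v ∈ vs (cl (D \ {T}) (Sum.inr h : Atom V c)), v ∈ F → v ∈ T.1 := by
    intro v hv hvF
    rw [← h7]
    exact mem_inter.2 ⟨vs_mono (hTcD.trans sdiff_subset) hv, hvF⟩
  have hout : ((rt c h ∩ F) \ vs (cl (D \ {T}) (Sum.inr h : Atom V c))).card ≤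
      ((univ.image h ∩ F) \ vs (cl (D \ {T}) (Sum.inr h : Atom V c))).card := by
    apply card_le_card
    exact sdiff_subset_sdiff (inter_subset_inter_right (rt_sub h)) (Subset.refl _)
  have hpos := hTcne.card_pos
  have hclaim : ex (Sum.inr h : Atom V c) F ≤
      ((vs (cl (D \ {T}) (Sum.inr h : Atom V c)) \ F).card : ℤ) -
        ((cl (D \ {T}) (Sum.inr h : Atom V c)).card : ℤ) - 1 := by
    by_cases hone : 2 ≤ (cl (D \ {T}) (Sum.inr h : Atom V c)).card
    · rw [if_pos hone] at hax
      by_cases hr : rt c h ⊆ F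
      · rw [if_pos hr] at hrk
        have h8 : 1 ≤ ((rt c h ∩ F) \ vs (cl (D \ {T}) (Sum.inr h : Atom V c))).card := by
          apply card_pos.2
          by_contra h0
          rw [not_nonempty_iff_eq_empty, sdiff_eq_empty_iff_subset, inter_eq_left.2 hr] at h0
          have h9 : rt c h ⊆ T.1 := fun v hv => hin v (h0 hv) (hr hv)
          exact hrt (eq_of_subset_of_card_le h9 (by rw [T.2, hrc]))
        omega
      · rw [if_neg hr] at hrk
        omega
    · rw [if_neg hone] at hax
      have h1 : (cl (D \ {T}) (Sum.inr h : Atom V c)).card = 1 := by omega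
      obtain ⟨t, ht'⟩ := card_eq_one.1 h1
      have htD : t ∈ D \ {T} := hTcD (by rw [ht']; exact mem_singleton_self t)
      have htT : (t.1 ∩ T.1).card ≤ 1 := by
        rw [mem_sdiff, mem_singleton] at htD
        exact inter_card_le_one (cdis t htD.1 T hT htD.2)
      rw [ht', vs_singleton] at hin hout hax
      rw [ht', vs_singleton]
      have h8 : (rt c h ∩ F ∩ t.1).card ≤ 1 := by
        refine le_trans (card_le_card ?_) htT
        intro v hv
        rw [mem_inter, mem_inter] at hv
        exact mem_inter.2 ⟨hv.2, hin v hv.2 hv.1.2⟩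
      have h9 := card_sdiff_add_card_inter (rt c h ∩ F) t.1
      by_cases hr : rt c h ⊆ F
      · rw [if_pos hr] at hrk
        have h10 : (rt c h ∩ F).card = 3 := by
          rw [inter_eq_left.2 hr]
          exact hrc
        omega
      · rw [if_neg hr] at hrk
        omega
  -- the other atoms
  have hnd' := List.nodup_cons.1 hnd
  have hlU : ∀ a ∈ l, a ∈ U := by
    intro a ha
    have h8 : a ∈ (Sum.inr h :: l).toFinset := by
      rw [List.mem_toFinset]
      exact List.mem_cons_of_mem _ ha
    rw [hlist] at h8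
    exact (mem_sdiff.1 h8).1
  have htail := exL_le hc1 hU hDc hbf l (F ∪ av (Sum.inr h : Atom V c)) hnd'.2 hlU
  have hcov : cl (D \ {T}) (Sum.inr h : Atom V c) ∪ l.toFinset.biUnion (cl (D \ {T})) =
      D \ {T} := by
    rw [← biUnion_insert, ← List.toFinset_cons, hlist]
    ext t
    rw [mem_biUnion]
    constructor
    · rintro ⟨a, -, ha⟩
      exact (mem_inter.1 ha).2
    · intro htD
      obtain ⟨a, haU, hat⟩ := hU.cover t htD
      refine ⟨a, ?_, mem_inter.2 ⟨hat, htD⟩⟩
      rw [mem_sdiff]
      refine ⟨haU, fun haP => ?_⟩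
      have h8 : t ∈ knw D {T} U P := by
        unfold knw
        refine mem_union_right _ (mem_inter.2 ⟨(mem_sdiff.1 htD).1, ?_⟩)
        exact mem_biUnion.2 ⟨a, mem_inter.2 ⟨haU, haP⟩, hat⟩
      exact (mem_sdiff.1 htD).2 (mem_singleton.2 (hST t h8))
  have hdis : Disjoint (cl (D \ {T}) (Sum.inr h : Atom V c))
      (l.toFinset.biUnion (cl (D \ {T}))) := by
    rw [disjoint_biUnion_right]
    intro b hb'
    rw [disjoint_left]
    intro t ht1 ht2
    rw [cl, mem_inter] at ht1 ht2
    have h8 := hU.uniq t ht1.2 _ hhU b (hlU b (List.mem_toFinset.1 hb')) ht1.1 ht2.1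
    rw [← h8] at hb'
    exact hnd'.1 (List.mem_toFinset.1 hb')
  have hcard : (cl (D \ {T}) (Sum.inr h : Atom V c)).card +
      (l.toFinset.biUnion (cl (D \ {T}))).card = (D \ {T}).card := by
    rw [← card_union_of_disjoint hdis, hcov]
  have hva : vs (cl (D \ {T}) (Sum.inr h : Atom V c)) ⊆ av (Sum.inr h : Atom V c) := by
    refine vs_cl_sub fun h' hh => hbf h' (hU.inj h' ?_)
    rw [← hh]
    exact hhU
  have hvs : (vs (cl (D \ {T}) (Sum.inr h : Atom V c)) \ F).card +
      (vs (l.toFinset.biUnion (cl (D \ {T}))) \ (F ∪ av (Sum.inr h : Atom V c))).card ≤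
      (vs D \ F).card := by
    have h8 : Disjoint (vs (cl (D \ {T}) (Sum.inr h : Atom V c)) \ F)
        (vs (l.toFinset.biUnion (cl (D \ {T}))) \ (F ∪ av (Sum.inr h : Atom V c))) := by
      rw [disjoint_left]
      intro v hv hv'
      rw [mem_sdiff] at hv hv'
      exact hv'.2 (mem_union_right _ (hva hv.1))
    rw [← card_union_of_disjoint h8]
    apply card_le_card
    intro v hv
    rw [mem_union, mem_sdiff, mem_sdiff] at hv
    rw [mem_sdiff]
    rcases hv with hv | hv
    · exact ⟨vs_mono (hTcD.trans sdiff_subset) hv.1, hv.2⟩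
    · refine ⟨?_, fun h9 => hv.2 (mem_union_left _ h9)⟩
      refine vs_mono ?_ hv.1
      intro t ht1
      rw [mem_biUnion] at ht1
      obtain ⟨a, -, ha⟩ := ht1
      exact (mem_sdiff.1 (mem_inter.1 ha).2).1
  have hvD := card_sdiff_add_card_inter (vs D) F
  change ex (Sum.inr h : Atom V c) F + exL (F ∪ av (Sum.inr h : Atom V c)) l ≤ -1
  omega

end F2
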