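import Pool.Agent.F2.S.Base

/-!
# Project F2, block S, row S1: the weighted number of atoms with exponent
-/

set_option autoImplicit false
set_option linter.unusedSectionVars false

namespace F2

open Finset NW F1

section One

variable {V : Type} [Fintype V] [DecidableEq V] {c : ℕ}

/-- the weight of a vertex -/
def wtK (N : ℝ) (K : Finset V) (v : V) : ℝ := if v ∈ K then N else 1

theorem wtK_nonneg {N : ℝ} (hN : 1 ≤ N) (K : Finset V) (v : V) : 0 ≤ wtK N K v := by
  unfold wtK
  split_ifs <;> linarith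

theorem sum_wtK_le (K : Finset V) {L : ℕ} (hK : K.card ≤ L) :
    ∑ v, wtK (Fintype.card V : ℝ) K v ≤ (1 + L) * (Fintype.card V : ℝ) := by
  have h1 : ∀ v, wtK (Fintype.card V : ℝ) K v ≤
      (if v ∈ K then (Fintype.card V : ℝ) else 0) + 1 := by
    intro v
    unfold wtK
    split_ifs <;> linarith
  calc ∑ v, wtK (Fintype.card V : ℝ) K v
      ≤ ∑ v, ((if v ∈ K then (Fintype.card V : ℝ) else 0) + 1) := sum_le_sum fun v _ => h1 v
    _ = (K.card : ℝ) * (Fintype.card V : ℝ) + (Fintype.card V : ℝ) := by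
        rw [sum_add_distrib, ← sum_filter, sum_const, sum_const]
        simp
    _ ≤ (L : ℝ) * (Fintype.card V : ℝ) + (Fintype.card V : ℝ) := by
        gcongr
    _ = _ := by ring

/-- a product of weights is a power -/
theorem prod_wtK {ι : Type*} (s : Finset ι) (h : ι → V) (N : ℝ) (K : Finset V) :
    ∏ j ∈ s, wtK N K (h j) = N ^ (s.filter (fun j => h j ∈ K)).card := by
  unfold wtK
  rw [prod_ite]
  simp

/-- the root indices -/
def rI (c : ℕ) : Finset (Fin (c + 2)) := {0, 1, 2}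

theorem card_rI (hc : 1 ≤ c) : (rI c).card = 3 := by
  have h1 := rt_card (V := Fin (c + 2)) (c := c) hc (h := fun j => j) (fun _ _ h => h)
  exact h1

/-- the sum over all placements with root vertices in `R` -/
theorem sum_pi_le (hc : 1 ≤ c) (R : Finset V) (w : V → ℝ) :
    ∑ h ∈ Fintype.piFinset (fun j : Fin (c + 2) => if j ∈ rI c then R else univ),
      ∏ j ∈ univ \ rI c, w (h j) = (R.card : ℝ) ^ 3 * (∑ v, w v) ^ (c - 1) := by
  have h1 := (Finset.prod_univ_sum (fun j : Fin (c + 2) => if j ∈ rI c then R else univ)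
    (fun j v => if j ∈ rI c then (1 : ℝ) else w v)).symm
  have h2 : ∀ h : Fin (c + 2) → V, ∏ j, (if j ∈ rI c then (1 : ℝ) else w (h j)) =
      ∏ j ∈ univ \ rI c, w (h j) := by
    intro h
    rw [prod_ite]
    simp only [prod_const_one, one_mul]
    refine prod_congr ?_ fun _ _ => rfl
    ext j
    simp
  simp only [h2] at h1
  rw [h1]
  have h3 : ∀ j : Fin (c + 2), ∑ v ∈ (if j ∈ rI c then R else univ),
      (if j ∈ rI c then (1 : ℝ) else w v) = if j ∈ rI c then (R.card : ℝ) else ∑ v, w v := by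
    intro j
    split_ifs with h4
    · simp
    · rfl
  simp only [h3]
  rw [prod_ite, prod_const, prod_const]
  have h4 : (univ.filter (fun j : Fin (c + 2) => j ∈ rI c)) = rI c := by
    ext j; simp
  have h5 : (univ.filter (fun j : Fin (c + 2) => j ∉ rI c)).card = c - 1 := by
    have h6 : (univ.filter (fun j : Fin (c + 2) => j ∉ rI c)) = univ \ rI c := by
      ext j; simp
    rw [h6, card_sdiff_of_subset (subset_univ _), card_rI hc, card_univ, Fintype.card_fin]
    omega
  rw [h4, h5, card_rI hc]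

/-- the exponent of a root -/
def er (K r : Finset V) : ℤ := ((r ∩ K).card : ℤ) - 2 - (if r ⊆ K then 1 else 0)

theorem card_image_inter_le (h : Fin (c + 2) → V) (K : Finset V) :
    (univ.image h ∩ K).card ≤ (rt c h ∩ K).card +
      ((univ \ rI c).filter (fun j => h j ∈ K)).card := by
  have h1 : univ.image h ∩ K ⊆ (rt c h ∩ K) ∪
      ((univ \ rI c).filter (fun j => h j ∈ K)).image h := by
    intro v hv
    rw [mem_inter, mem_image] at hv
    obtain ⟨⟨j, _, rfl⟩, hv⟩ := hv
    rw [mem_union, mem_inter]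
    by_cases hj : j ∈ rI c
    · left
      refine ⟨?_, hv⟩
      simp only [rI, mem_insert, mem_singleton] at hj
      rcases hj with rfl | rfl | rfl <;> simp [rt]
    · right
      exact mem_image_of_mem _ (by simp [hj, hv])
  calc _ ≤ _ := card_le_card h1
    _ ≤ (rt c h ∩ K).card + (((univ \ rI c).filter (fun j => h j ∈ K)).image h).card :=
        card_union_le _ _
    _ ≤ _ := by gcongr; exact card_image_le

theorem pow_ex_le {N : ℝ} (hN : 1 ≤ N) (h : Fin (c + 2) → V) (K : Finset V) :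
    N ^ (-ex (Sum.inr h : Atom V c) K) ≤
      N ^ er K (rt c h) * ∏ j ∈ univ \ rI c, wtK N K (h j) := by
  have hN0 : N ≠ 0 := by positivity
  rw [prod_wtK, ← zpow_natCast, ← zpow_add₀ hN0]
  refine zpow_le_zpow_right₀ hN ?_
  have h1 := card_image_inter_le h K
  have h2 : rk (Sum.inr h : Atom V c) K = if rt c h ⊆ K then 1 else 0 := rfl
  unfold ex er
  rw [av_inr, h2]
  omega

/-- boosters of one root -/
theorem sum_root_le (hc : 1 ≤ c) {N : ℝ} (hN : 1 ≤ N) {K : Finset V} {W : ℝ}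
    (hW : ∑ v, wtK N K v ≤ W) (R : Finset V) (hR : R.card = 3) :
    ∑ h ∈ univ.filter (fun h : Fin (c + 2) → V => rt c h = R),
      N ^ (-ex (Sum.inr h : Atom V c) K) ≤ 27 * W ^ (c - 1) * N ^ er K R := by
  have hN0 : 0 < N := by linarith
  have hsub : univ.filter (fun h : Fin (c + 2) → V => rt c h = R) ⊆
      Fintype.piFinset (fun j : Fin (c + 2) => if j ∈ rI c then R else univ) := by
    intro h hh
    rw [mem_filter] at hh
    rw [Fintype.mem_piFinset]
    intro j
    split_ifs with hj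
    · rw [← hh.2]
      simp only [rI, mem_insert, mem_singleton] at hj
      rcases hj with rfl | rfl | rfl <;> simp [rt]
    · exact mem_univ _
  have hP : ∀ h : Fin (c + 2) → V, 0 ≤ ∏ j ∈ univ \ rI c, wtK N K (h j) := fun h =>
    prod_nonneg fun j _ => wtK_nonneg hN K _
  have hs0 : 0 ≤ ∑ v, wtK N K v := sum_nonneg fun v _ => wtK_nonneg hN K v
  calc ∑ h ∈ univ.filter (fun h : Fin (c + 2) → V => rt c h = R),
        N ^ (-ex (Sum.inr h : Atom V c) K)
      ≤ ∑ h ∈ univ.filter (fun h : Fin (c + 2) → V => rt c h = R),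
        N ^ er K R * ∏ j ∈ univ \ rI c, wtK N K (h j) := by
        refine sum_le_sum fun h hh => ?_
        rw [mem_filter] at hh
        rw [← hh.2]
        exact pow_ex_le hN h K
    _ ≤ ∑ h ∈ Fintype.piFinset (fun j : Fin (c + 2) => if j ∈ rI c then R else univ),
        N ^ er K R * ∏ j ∈ univ \ rI c, wtK N K (h j) := by
        refine sum_le_sum_of_subset_of_nonneg hsub fun h _ _ => ?_
        exact mul_nonneg (zpow_pos hN0 _).le (hP h)
    _ = N ^ er K R * ((R.card : ℝ) ^ 3 * (∑ v, wtK N K v) ^ (c - 1)) := by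
        rw [← mul_sum, sum_pi_le hc]
    _ ≤ N ^ er K R * ((3 : ℝ) ^ 3 * W ^ (c - 1)) := by
        rw [hR]
        have := (zpow_pos hN0 (er K R)).le
        gcongr
        norm_num
    _ = _ := by ring

/-- boosters of all roots -/
theorem sum_boost_le (hc : 1 ≤ c) {K : Finset V} {W : ℝ} (hn : 1 ≤ Fintype.card V)
    (hW : ∑ v, wtK (Fintype.card V : ℝ) K v ≤ W) {RT : Finset (Tri V)} {B : ℝ} (hB : 0 ≤ B)
    {y : Atom V c → ℝ} (hy : WBound B RT y) (p : Finset V → Prop) [DecidablePred p] :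
    ∑ h ∈ univ.filter (fun h : Fin (c + 2) → V => p (rt c h)),
      y (Sum.inr h) * (Fintype.card V : ℝ) ^ (-ex (Sum.inr h : Atom V c) K) ≤
      B / (Fintype.card V : ℝ) ^ (c - 1) * (27 * W ^ (c - 1) *
        ∑ r ∈ RT.filter (fun r => p r.1), (Fintype.card V : ℝ) ^ er K r.1) := by
  set N : ℝ := (Fintype.card V : ℝ) with hNdef
  have hN : 1 ≤ N := by rw [hNdef]; exact_mod_cast hn
  have hN0 : 0 < N := by linarith
  have h1 : ∀ h : Fin (c + 2) → V, p (rt c h) →
      y (Sum.inr h) * N ^ (-ex (Sum.inr h : Atom V c) K) ≤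
      ∑ r ∈ RT.filter (fun r => p r.1), if rt c h = r.1 then
        B / N ^ (c - 1) * N ^ (-ex (Sum.inr h : Atom V c) K) else 0 := by
    intro h hp
    have hnn : ∀ r : Tri V, 0 ≤ (if rt c h = r.1 then
        B / N ^ (c - 1) * N ^ (-ex (Sum.inr h : Atom V c) K) else 0) := by
      intro r
      split_ifs
      · have := (zpow_pos hN0 (-ex (Sum.inr h : Atom V c) K)).le
        positivity
      · exact le_rfl
    by_cases h0 : y (Sum.inr h) = 0
    · rw [h0, zero_mul]
      exact sum_nonneg fun r _ => hnn r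
    · obtain ⟨r, hr, hrt⟩ := hy.root h h0
      have h2 : r ∈ RT.filter (fun r => p r.1) := by
        rw [mem_filter]
        exact ⟨hr, hrt ▸ hp⟩
      refine le_trans ?_ (single_le_sum (fun r _ => hnn r) h2)
      rw [if_pos hrt]
      exact mul_le_mul_of_nonneg_right (hy.boo h) (zpow_pos hN0 _).le
  calc ∑ h ∈ univ.filter (fun h : Fin (c + 2) → V => p (rt c h)),
        y (Sum.inr h) * N ^ (-ex (Sum.inr h : Atom V c) K)
      ≤ ∑ h ∈ univ.filter (fun h : Fin (c + 2) → V => p (rt c h)),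
        ∑ r ∈ RT.filter (fun r => p r.1), (if rt c h = r.1 then
          B / N ^ (c - 1) * N ^ (-ex (Sum.inr h : Atom V c) K) else 0) :=
        sum_le_sum fun h hh => h1 h (mem_filter.1 hh).2
    _ = ∑ r ∈ RT.filter (fun r => p r.1),
        ∑ h ∈ univ.filter (fun h : Fin (c + 2) → V => p (rt c h)), (if rt c h = r.1 then
          B / N ^ (c - 1) * N ^ (-ex (Sum.inr h : Atom V c) K) else 0) := sum_comm
    _ ≤ ∑ r ∈ RT.filter (fun r => p r.1),
        B / N ^ (c - 1) * (27 * W ^ (c - 1) * N ^ er K r.1) := by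
        refine sum_le_sum fun r _ => ?_
        have h2 := sum_root_le hc hN hW r.1 r.2
        refine le_trans ?_ (mul_le_mul_of_nonneg_left h2 (by positivity :
          (0 : ℝ) ≤ B / N ^ (c - 1)))
        rw [← sum_filter, mul_sum]
        refine sum_le_sum_of_subset_of_nonneg ?_ fun h _ _ => ?_
        · intro h hh
          rw [mem_filter, mem_filter] at hh
          rw [mem_filter]
          exact ⟨mem_univ _, hh.2⟩
        · have := (zpow_pos hN0 (-ex (Sum.inr h : Atom V c) K)).le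
          positivity
    _ = _ := by rw [← mul_sum, ← mul_sum]

/-! ### Roots -/

theorem er_zero {K r : Finset V} (hr : r.card = 3) (h : (r ∩ K).card = 0) : er K r = -2 := by
  unfold er
  have h1 : ¬ r ⊆ K := by
    intro h2
    rw [inter_eq_left.2 h2] at h
    omega
  rw [if_neg h1, h]
  norm_num

theorem er_one {K r : Finset V} (hr : r.card = 3) (h : (r ∩ K).card = 1) : er K r = -1 := by
  unfold er
  have h1 : ¬ r ⊆ K := by
    intro h2
    rw [inter_eq_left.2 h2] at h
    omega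
  rw [if_neg h1, h]
  norm_num

theorem er_le {K r : Finset V} (hr : r.card = 3) : er K r ≤ 0 := by
  unfold er
  have h0 : (r ∩ K).card ≤ 3 := by rw [← hr]; exact card_le_card inter_subset_left
  split_ifs with h1
  · omega
  · have h2 : (r ∩ K).card ≠ 3 := by
      intro h3
      apply h1
      have h4 := eq_of_subset_of_card_le (inter_subset_left : r ∩ K ⊆ r) (by omega)
      rw [← h4]
      exact inter_subset_right
    omega

variable {C s : ℕ} {RT : Finset (Tri V)}

/-- the number of roots -/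
theorem card_RT_le (hb : RBound C s RT) :
    (RT.card : ℝ) * s ≤ C * (Fintype.card V : ℝ) ^ 2 := by
  have h1 : ∑ v : V, (RT.filter (fun r => v ∈ r.1)).card = ∑ r ∈ RT, r.1.card := by
    simp only [card_filter, sum_comm (s := univ) (t := RT)]
    refine sum_congr rfl fun r _ => ?_
    rw [← card_filter]
    congr 1
    ext v
    simp
  have h2 : RT.card ≤ ∑ r ∈ RT, r.1.card := by
    rw [card_eq_sum_ones]
    exact sum_le_sum fun r _ => by rw [r.2]; norm_num
  have h3 : (∑ v : V, (RT.filter (fun r => v ∈ r.1)).card) * s ≤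
      Fintype.card V * (C * Fintype.card V) := by
    rw [sum_mul]
    calc _ ≤ ∑ _v : V, C * Fintype.card V := sum_le_sum fun v _ => hb.vert v
      _ = _ := by rw [sum_const, card_univ, smul_eq_mul]
  have h4 : RT.card * s ≤ Fintype.card V * (C * Fintype.card V) :=
    (Nat.mul_le_mul_right s (h2.trans h1.ge)).trans h3
  have h5 : ((RT.card * s : ℕ) : ℝ) ≤ ((Fintype.card V * (C * Fintype.card V) : ℕ) : ℝ) :=
    Nat.cast_le.2 h4
  push_cast at h5
  calc (RT.card : ℝ) * s ≤ _ := h5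
    _ = _ := by ring

/-- roots with at most one known vertex -/
theorem sum_low_le (hb : RBound C s RT) (hn : 1 ≤ Fintype.card V) (hs : 1 ≤ s) {L : ℕ}
    {K : Finset V} (hK : K.card ≤ L) :
    ∑ r ∈ RT.filter (fun r => (r.1 ∩ K).card ≤ 1), (Fintype.card V : ℝ) ^ er K r.1 ≤
      C * (1 + L) / s := by
  set N : ℝ := (Fintype.card V : ℝ) with hNdef
  have hN : 1 ≤ N := by rw [hNdef]; exact_mod_cast hn
  have hN0 : 0 < N := by linarith
  have hs0 : (0 : ℝ) < s := by exact_mod_cast hs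
  have h1 : ∀ r ∈ RT.filter (fun r => (r.1 ∩ K).card ≤ 1),
      N ^ er K r.1 ≤ N ^ (-2 : ℤ) + ∑ v ∈ K, if v ∈ r.1 then N ^ (-1 : ℤ) else 0 := by
    intro r hr
    rw [mem_filter] at hr
    have hnn : ∀ v ∈ K, (0 : ℝ) ≤ if v ∈ r.1 then N ^ (-1 : ℤ) else 0 := by
      intro v _
      split_ifs
      · positivity
      · exact le_rfl
    rcases Nat.lt_or_ge (r.1 ∩ K).card 1 with h2 | h2
    · rw [er_zero r.2 (by omega)]
      have := sum_nonneg hnn
      linarith
    · have h3 : (r.1 ∩ K).card = 1 := by omega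
      obtain ⟨v, hv⟩ := card_eq_one.1 h3
      have hv' : v ∈ r.1 ∩ K := by rw [hv]; simp
      rw [mem_inter] at hv'
      rw [er_one r.2 h3]
      have h4 := single_le_sum hnn hv'.2
      rw [if_pos hv'.1] at h4
      have : 0 ≤ N ^ (-2 : ℤ) := by positivity
      linarith
  calc ∑ r ∈ RT.filter (fun r => (r.1 ∩ K).card ≤ 1), N ^ er K r.1
      ≤ ∑ r ∈ RT.filter (fun r => (r.1 ∩ K).card ≤ 1),
        (N ^ (-2 : ℤ) + ∑ v ∈ K, if v ∈ r.1 then N ^ (-1 : ℤ) else 0) := sum_le_sum h1
    _ ≤ ∑ r ∈ RT, (N ^ (-2 : ℤ) + ∑ v ∈ K, if v ∈ r.1 then N ^ (-1 : ℤ) else 0) := by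
        refine sum_le_sum_of_subset_of_nonneg (filter_subset _ _) fun r _ _ => ?_
        refine add_nonneg (by positivity) (sum_nonneg fun v _ => ?_)
        split_ifs
        · positivity
        · exact le_rfl
    _ = RT.card * N ^ (-2 : ℤ) + ∑ v ∈ K, ((RT.filter (fun r => v ∈ r.1)).card : ℝ) *
          N ^ (-1 : ℤ) := by
        rw [sum_add_distrib, sum_const, nsmul_eq_mul, sum_comm]
        congr 1
        refine sum_congr rfl fun v _ => ?_
        rw [← sum_filter, sum_const, nsmul_eq_mul]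
    _ ≤ C / s + ∑ _v ∈ K, (C : ℝ) / s := by
        refine add_le_add ?_ (sum_le_sum fun v _ => ?_)
        · have h2 := card_RT_le hb
          rw [← hNdef] at h2
          have e : N ^ (-2 : ℤ) = (N ^ 2)⁻¹ := by rw [zpow_neg]; norm_cast
          rw [e, le_div_iff₀ hs0, ← div_eq_mul_inv, div_mul_eq_mul_div,
            div_le_iff₀ (by positivity)]
          exact h2
        · have h2 : (((RT.filter (fun r => v ∈ r.1)).card * s : ℕ) : ℝ) ≤
              ((C * Fintype.card V : ℕ) : ℝ) := Nat.cast_le.2 (hb.vert v)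
          push_cast at h2
          rw [zpow_neg_one, le_div_iff₀ hs0, ← div_eq_mul_inv, div_mul_eq_mul_div,
            div_le_iff₀ hN0]
          exact h2
    _ = C / s + K.card * (C / s) := by rw [sum_const, nsmul_eq_mul]
    _ ≤ C / s + L * (C / s) := by gcongr
    _ = _ := by ring

/-- roots with at least two known vertices -/
theorem card_high_le (hb : RBound C s RT) {L : ℕ} {K : Finset V} (hK : K.card ≤ L) :
    ((RT.filter (fun r => ¬ (r.1 ∩ K).card ≤ 1)).card : ℝ) ≤ C * (L : ℝ) ^ 2 := by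
  have h1 : RT.filter (fun r => ¬ (r.1 ∩ K).card ≤ 1) ⊆
      (K ×ˢ K).biUnion (fun p => RT.filter (fun r => s(p.1, p.2) ∈ NW.edg r.1)) := by
    intro r hr
    rw [mem_filter] at hr
    obtain ⟨a, ha, b, hb', hab⟩ := one_lt_card.1 (not_le.1 hr.2)
    rw [mem_inter] at ha hb'
    rw [mem_biUnion]
    refine ⟨(a, b), mem_product.2 ⟨ha.2, hb'.2⟩, ?_⟩
    rw [mem_filter]
    exact ⟨hr.1, NW.mk_mem_edg.2 ⟨ha.1, hb'.1, hab⟩⟩
  have h2 : (RT.filter (fun r => ¬ (r.1 ∩ K).card ≤ 1)).card ≤ C * L ^ 2 := by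
    calc _ ≤ _ := card_le_card h1
      _ ≤ ∑ p ∈ K ×ˢ K, (RT.filter (fun r => s(p.1, p.2) ∈ NW.edg r.1)).card := card_biUnion_le
      _ ≤ ∑ _p ∈ K ×ˢ K, C := sum_le_sum fun p _ => hb.pair _
      _ = K.card * K.card * C := by rw [sum_const, card_product, smul_eq_mul]
      _ ≤ L * L * C := by gcongr
      _ = _ := by ring
  exact_mod_cast h2

/-- all roots -/
theorem sum_roots_le (hb : RBound C s RT) (hn : 1 ≤ Fintype.card V) (hs : 1 ≤ s) {L : ℕ}
    {K : Finset V} (hK : K.card ≤ L) :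
    ∑ r ∈ RT, (Fintype.card V : ℝ) ^ er K r.1 ≤ C * (1 + L) + C * (L : ℝ) ^ 2 := by
  have hN : (1 : ℝ) ≤ (Fintype.card V : ℝ) := by exact_mod_cast hn
  rw [← sum_filter_add_sum_filter_not RT (fun r => (r.1 ∩ K).card ≤ 1)]
  refine add_le_add ?_ ?_
  · refine (sum_low_le hb hn hs hK).trans ?_
    have hs1 : (1 : ℝ) ≤ s := by exact_mod_cast hs
    exact div_le_self (by positivity) hs1
  · calc _ ≤ ∑ r ∈ RT.filter (fun r => ¬ (r.1 ∩ K).card ≤ 1), (1 : ℝ) := by
          refine sum_le_sum fun r _ => ?_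
          have h1 := zpow_le_zpow_right₀ hN (er_le (K := K) r.2)
          rwa [zpow_zero] at h1
      _ = ((RT.filter (fun r => ¬ (r.1 ∩ K).card ≤ 1)).card : ℝ) := by simp
      _ ≤ _ := card_high_le hb hK

/-! ### Triples -/

/-- the triples -/
theorem sum_tri_le {K : Finset V} {W : ℝ} (hn : 1 ≤ Fintype.card V)
    (hW : ∑ v, wtK (Fintype.card V : ℝ) K v ≤ W) {B : ℝ} (hB : 0 ≤ B)
    {y : Atom V c → ℝ} (hy : WBound B RT y) :
    ∑ T : Tri V, y (Sum.inl T) * (Fintype.card V : ℝ) ^ (-ex (Sum.inl T : Atom V c) K) ≤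
      B / (Fintype.card V : ℝ) * ((Fintype.card V : ℝ) ^ (-2 : ℤ) * W ^ 3) := by
  set N : ℝ := (Fintype.card V : ℝ) with hNdef
  have hN : 1 ≤ N := by rw [hNdef]; exact_mod_cast hn
  have hN0 : 0 < N := by linarith
  have hs0 : 0 ≤ ∑ v, wtK N K v := sum_nonneg fun v _ => wtK_nonneg hN K v
  -- an ordering of every triple
  have hord : ∀ T : Tri V, ∃ f : Fin 3 → V, Function.Injective f ∧ univ.image f = T.1 := by
    intro T
    refine ⟨fun i => (T.1.equivFinOfCardEq T.2).symm i, ?_, ?_⟩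
    · intro i j hij
      exact (T.1.equivFinOfCardEq T.2).symm.injective (Subtype.ext hij)
    · ext v
      simp only [mem_image, mem_univ, true_and]
      constructor
      · rintro ⟨i, rfl⟩
        exact ((T.1.equivFinOfCardEq T.2).symm i).2
      · intro hv
        exact ⟨T.1.equivFinOfCardEq T.2 ⟨v, hv⟩, by simp⟩
  choose f hfi hf using hord
  have h1 : ∀ T : Tri V, N ^ (-ex (Sum.inl T : Atom V c) K) =
      N ^ (-2 : ℤ) * ∏ j, wtK N K (f T j) := by
    intro T
    rw [prod_wtK, ← zpow_natCast, ← zpow_add₀ hN0.ne']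
    congr 1
    have h2 : (univ.filter (fun j => f T j ∈ K)).card = (T.1 ∩ K).card := by
      rw [← card_image_of_injective _ (hfi T)]
      congr 1
      ext v
      rw [mem_inter, ← hf T]
      simp only [mem_image, mem_filter, mem_univ, true_and]
      constructor
      · rintro ⟨j, hj, rfl⟩
        exact ⟨⟨j, rfl⟩, hj⟩
      · rintro ⟨⟨j, rfl⟩, hj⟩
        exact ⟨j, hj, rfl⟩
    have h3 : rk (Sum.inl T : Atom V c) K = 0 := rfl
    unfold ex
    rw [h3, av_inl, h2]
    ring
  have hfin : Function.Injective f := by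
    intro T T' h
    apply Subtype.ext
    rw [← hf T, ← hf T', h]
  calc ∑ T : Tri V, y (Sum.inl T) * N ^ (-ex (Sum.inl T : Atom V c) K)
      ≤ ∑ T : Tri V, B / N * (N ^ (-2 : ℤ) * ∏ j, wtK N K (f T j)) := by
        refine sum_le_sum fun T _ => ?_
        rw [h1]
        refine mul_le_mul_of_nonneg_right (hy.tri T) ?_
        exact mul_nonneg (by positivity) (prod_nonneg fun j _ => wtK_nonneg hN K _)
    _ = B / N * (N ^ (-2 : ℤ) * ∑ T : Tri V, ∏ j, wtK N K (f T j)) := by
        rw [← mul_sum, ← mul_sum]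
    _ ≤ B / N * (N ^ (-2 : ℤ) * ∑ g : Fin 3 → V, ∏ j, wtK N K (g j)) := by
        have h2 : ∑ T : Tri V, ∏ j, wtK N K (f T j) ≤ ∑ g : Fin 3 → V, ∏ j, wtK N K (g j) := by
          rw [← sum_image (f := fun g : Fin 3 → V => ∏ j, wtK N K (g j)) (g := f)
            (s := (univ : Finset (Tri V))) fun a _ b _ h => hfin h]
          exact sum_le_sum_of_subset_of_nonneg (subset_univ _) fun g _ _ =>
            prod_nonneg fun j _ => wtK_nonneg hN K _
        gcongr
    _ = B / N * (N ^ (-2 : ℤ) * (∑ v, wtK N K v) ^ 3) := by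
        have h2 := (Finset.prod_univ_sum (fun _ : Fin 3 => (univ : Finset V))
          (fun _ v => wtK N K v))
        rw [prod_const, card_univ, Fintype.card_fin, Fintype.piFinset_univ] at h2
        rw [h2]
    _ ≤ _ := by gcongr

end One

theorem oa : OAStatement := by
  intro c L C hc
  refine ⟨(1 + L) ^ 3 + 27 * (1 + L) ^ (c - 1) * (C * (1 + L) + C * (L : ℝ) ^ 2), ?_, ?_⟩
  · have h1 : (1 : ℝ) ≤ (1 + L) ^ 3 := one_le_pow₀ (by linarith [Nat.cast_nonneg (α := ℝ) L])
    have h2 : (0 : ℝ) ≤ 27 * (1 + L) ^ (c - 1) * (C * (1 + L) + C * (L : ℝ) ^ 2) := by positivity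
    linarith
  intro V _ _ RT s B y K hn hs hB hb hy hK
  have hc1 : 1 ≤ c := by omega
  set N : ℝ := (Fintype.card V : ℝ) with hNdef
  have hN : 1 ≤ N := by rw [hNdef]; exact_mod_cast hn
  have hN0 : 0 < N := by linarith
  have hB0 : 0 ≤ B := by linarith
  have hW : ∑ v, wtK N K v ≤ (1 + L) * N := sum_wtK_le K hK
  have hs0 : (0 : ℝ) < s := by exact_mod_cast hs
  have hpow : B / N ^ (c - 1) * (27 * ((1 + L) * N) ^ (c - 1)) = 27 * (1 + L) ^ (c - 1) * B := by
    rw [mul_pow]
    field_simp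
  constructor
  · rw [Fintype.sum_sum_type]
    have h1 := sum_tri_le hn hW hB0 hy
    have h2 := sum_boost_le hc1 hn hW hB0 hy (fun _ => True)
    simp only [filter_true] at h2
    have h3 := sum_roots_le hb hn hs hK
    have e1 : B / N * (N ^ (-2 : ℤ) * ((1 + L) * N) ^ 3) = (1 + L) ^ 3 * B := by
      rw [zpow_neg, mul_pow]
      field_simp
    rw [← hNdef] at h1 h2 h3
    rw [e1] at h1
    rw [← mul_assoc, hpow] at h2
    have h4 : 27 * (1 + (L : ℝ)) ^ (c - 1) * B * ∑ r ∈ RT, N ^ er K r.1 ≤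
        27 * (1 + (L : ℝ)) ^ (c - 1) * B * (C * (1 + L) + C * (L : ℝ) ^ 2) := by
      gcongr
    calc _ ≤ (1 + (L : ℝ)) ^ 3 * B + 27 * (1 + (L : ℝ)) ^ (c - 1) * B *
          (C * (1 + L) + C * (L : ℝ) ^ 2) := add_le_add h1 (h2.trans h4)
      _ = _ := by ring
  · have h2 := sum_boost_le hc1 hn hW hB0 hy (fun r => (r ∩ K).card ≤ 1)
    have h3 := sum_low_le hb hn hs hK
    rw [← hNdef] at h2 h3
    rw [← mul_assoc, hpow] at h2
    refine h2.trans ?_
    calc 27 * (1 + (L : ℝ)) ^ (c - 1) * B *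
          ∑ r ∈ RT.filter (fun r => (r.1 ∩ K).card ≤ 1), N ^ er K r.1
        ≤ 27 * (1 + (L : ℝ)) ^ (c - 1) * B * (C * (1 + L) / s) := by gcongr
      _ = 27 * (1 + (L : ℝ)) ^ (c - 1) * (C * (1 + L)) * B / s := by ring
      _ ≤ _ := by
        gcongr
        have h4 : (0 : ℝ) ≤ (1 + L) ^ 3 := by positivity
        have h5 : 27 * (1 + (L : ℝ)) ^ (c - 1) * (C * (1 + L)) ≤
            27 * (1 + (L : ℝ)) ^ (c - 1) * (C * (1 + L) + C * (L : ℝ) ^ 2) := by
          gcongr
          have : (0 : ℝ) ≤ C * (L : ℝ) ^ 2 := by positivity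
          linarith
        linarith

end F2
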